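import Pool.Agent.Lib.MP_0a002e_co_h87.Signs

/-!
Balanced orientations of graphs on `{0, ..., n-1}` with small discrepancy on intervals.
-/

set_option autoImplicit false

namespace Pool.MP0a002eH87

open Classical in
/-- The number of vertices of odd degree is even. -/
theorem even_odd_degree (n : ℕ) (U : ℕ → ℕ → Prop) (hsymm : ∀ i j, U i j → U j i)
    (hirr : ∀ i, ¬ U i i) :
    Even ((Finset.range n).filter fun z => Odd ((Finset.range n).filter fun x => U z x).card).card := by
  have h1 : ((∑ z ∈ Finset.range n, ((Finset.range n).filter fun x => U z x).card : ℕ) : ZMod 2)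
      = 0 := by
    have h2 : (∑ z ∈ Finset.range n, ((Finset.range n).filter fun x => U z x).card) =
        ((Finset.range n ×ˢ Finset.range n).filter fun p => U p.1 p.2).card := by
      rw [Finset.card_filter, Finset.sum_product]
      refine Finset.sum_congr rfl fun z _ => ?_
      rw [Finset.card_filter]
    rw [h2, Finset.card_eq_sum_ones, Nat.cast_sum]
    refine Finset.sum_involution (fun p _ => (p.2, p.1)) (fun p _ => ?_) (fun p hp _ => ?_)
      (fun p hp => ?_) (fun p _ => rfl)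
    · push_cast
      decide
    · intro h
      rw [Finset.mem_filter] at hp
      have h3 : p.2 = p.1 := congrArg Prod.fst h
      rw [h3] at hp
      exact hirr _ hp.2
    · rw [Finset.mem_filter, Finset.mem_product] at hp ⊢
      exact ⟨⟨hp.1.2, hp.1.1⟩, hsymm _ _ hp.2⟩
  rw [Nat.cast_sum] at h1
  have h3 : ∀ z ∈ Finset.range n, ((((Finset.range n).filter fun x => U z x).card : ℕ) : ZMod 2) =
      if Odd ((Finset.range n).filter fun x => U z x).card then 1 else 0 := by
    intro z _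
    split_ifs with h
    · rw [ZMod.natCast_eq_one_iff_odd]; exact h
    · rw [ZMod.natCast_eq_zero_iff_even]; exact Nat.not_odd_iff_even.1 h
  rw [Finset.sum_congr rfl h3, Finset.sum_boole] at h1
  exact (ZMod.natCast_eq_zero_iff_even).1 h1

open Classical in
/-- Every graph on `{0, ..., n-1}` has an orientation `a` (with virtual diagonal darts at the
vertices of odd degree) such that all prefix sums at every vertex are at most one in absolute
value. -/
theorem exists_balanced' (n : ℕ) (U : ℕ → ℕ → Prop) (hsymm : ∀ i j, U i j → U j i)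
    (hirr : ∀ i, ¬ U i i) (hsupp : ∀ i j, U i j → i < n) :
    ∃ a : ℕ → ℕ → ℤ, (∀ z x, U z x → a z x = 1 ∨ a z x = -1) ∧
      (∀ z x, U z x → a x z = - a z x) ∧
      (∀ z x, ¬ U z x → x ≠ z → a z x = 0) ∧
      (∀ z i, |∑ x ∈ Finset.range i, a z x| ≤ 1) ∧
      (∀ z, ∑ x ∈ Finset.range n, a z x = 0) ∧
      (∀ i, |∑ z ∈ Finset.range i, a z z| ≤ 1) ∧
      ∑ z ∈ Finset.range n, a z z = 0 ∧ ∀ z, a z z ≤ 1 ∧ -1 ≤ a z z := by
  let N : ℕ → Finset ℕ := fun z => (Finset.range n).filter fun x => U z x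
  let T : Finset ℕ := (Finset.range n).filter fun z => Odd (N z).card
  let Ds : Finset (ℕ × ℕ) := (Finset.range n ×ˢ Finset.range n).filter
    fun p => U p.1 p.2 ∨ (p.1 = p.2 ∧ Odd (N p.1).card)
  have hDs : ∀ p : ℕ × ℕ, p ∈ Ds ↔ (U p.1 p.2 ∨ (p.1 = p.2 ∧ p.1 < n ∧ Odd (N p.1).card)) := by
    intro p
    simp only [Ds, Finset.mem_filter, Finset.mem_product, Finset.mem_range]
    constructor
    · rintro ⟨⟨h1, h2⟩, h3 | h3⟩
      · exact Or.inl h3
      · exact Or.inr ⟨h3.1, h1, h3.2⟩
    · rintro (h | ⟨h1, h2, h3⟩)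
      · exact ⟨⟨hsupp _ _ h, hsupp _ _ (hsymm _ _ h)⟩, Or.inl h⟩
      · exact ⟨⟨h2, h1 ▸ h2⟩, Or.inr ⟨h1, h3⟩⟩
  let F : ℕ → Finset ℕ := fun z => (Finset.range n).filter fun x => (z, x) ∈ Ds
  have hF : ∀ z x, x ∈ F z ↔ (z, x) ∈ Ds := by
    intro z x
    simp only [F, Finset.mem_filter, Finset.mem_range]
    refine ⟨fun h => h.2, fun h => ⟨?_, h⟩⟩
    rcases (hDs _).1 h with h1 | ⟨h1, h2, _⟩
    · exact hsupp _ _ (hsymm _ _ h1)
    · have h3 : z = x := h1
      exact h3 ▸ h2
  have hFeven : ∀ z, Even (F z).card := by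
    intro z
    by_cases hz : z < n ∧ Odd (N z).card
    · have h1 : F z = insert z (N z) := by
        ext x
        rw [hF, hDs, Finset.mem_insert]
        simp only [N, Finset.mem_filter, Finset.mem_range]
        constructor
        · rintro (h | ⟨h, _⟩)
          · exact Or.inr ⟨hsupp _ _ (hsymm _ _ h), h⟩
          · exact Or.inl h.symm
        · rintro (h | h)
          · exact Or.inr ⟨h.symm, hz⟩
          · exact Or.inl h.2
      have h2 : z ∉ N z := by
        simp only [N, Finset.mem_filter]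
        exact fun h => hirr z h.2
      rw [h1, Finset.card_insert_of_notMem h2]
      exact hz.2.add_one
    · have h1 : F z = N z := by
        ext x
        rw [hF, hDs]
        simp only [N, Finset.mem_filter, Finset.mem_range]
        constructor
        · rintro (h | ⟨_, h⟩)
          · exact ⟨hsupp _ _ (hsymm _ _ h), h⟩
          · exact absurd h hz
        · intro h
          exact Or.inl h.2
      rw [h1]
      by_cases hzn : z < n
      · exact Nat.not_odd_iff_even.1 fun h => hz ⟨hzn, h⟩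
      · have h2 : N z = ∅ := by
          simp only [N, Finset.filter_eq_empty_iff]
          intro x _ h
          exact hzn (hsupp _ _ h)
        rw [h2]
        simp
  choose τ hτ1 hτ2 using fun z => exists_pairing (F z) (hFeven z)
  obtain ⟨σ, hσ1, hσ2⟩ := exists_pairing T (even_odd_degree n U hsymm hirr)
  have hT : ∀ z, z ∈ T ↔ (z, z) ∈ Ds := by
    intro z
    rw [hDs]
    simp only [T, Finset.mem_filter, Finset.mem_range]
    constructor
    · exact fun h => Or.inr ⟨trivial, h⟩
    · rintro (h | h)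
      · exact absurd h (hirr z)
      · exact h.2
  let f : {p // p ∈ Ds} → {p // p ∈ Ds} := fun p =>
    if h : p.1.1 = p.1.2 then ⟨(σ p.1.1, σ p.1.1), (hT _).1 (hσ1 _ ((hT _).2 (by
      have := p.2
      have e : p.1 = (p.1.1, p.1.1) := Prod.ext rfl h.symm
      rwa [e] at this))).1⟩
    else ⟨(p.1.2, p.1.1), (hDs _).2 (by
      rcases (hDs _).1 p.2 with h1 | h1
      · exact Or.inl (hsymm _ _ h1)
      · exact absurd h1.1 h)⟩
  let g : {p // p ∈ Ds} → {p // p ∈ Ds} := fun p =>
    ⟨(p.1.1, τ p.1.1 p.1.2), (hF _ _).1 (hτ1 _ _ ((hF _ _).2 p.2)).1⟩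
  have hfd : ∀ z (h : (z, z) ∈ Ds), ∃ h', f ⟨(z, z), h⟩ = ⟨(σ z, σ z), h'⟩ := by
    intro z h
    refine ⟨(hT _).1 (hσ1 _ ((hT _).2 h)).1, ?_⟩
    simp only [f, dite_true]
  have hfo : ∀ z x (h : (z, x) ∈ Ds), z ≠ x → ∃ h', f ⟨(z, x), h⟩ = ⟨(x, z), h'⟩ := by
    intro z x h hzx
    have h1 : U z x := by
      rcases (hDs _).1 h with h1 | h1
      · exact h1
      · exact absurd h1.1 hzx
    refine ⟨(hDs _).2 (Or.inl (hsymm _ _ h1)), ?_⟩
    simp only [f, dif_neg hzx]
  obtain ⟨s, hs0, hs1, hs2⟩ := exists_sign f g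
    (by
      rintro ⟨⟨z, x⟩, h⟩
      by_cases hzx : z = x
      · subst hzx
        obtain ⟨h1, h2⟩ := hfd z h
        obtain ⟨h3, h4⟩ := hfd (σ z) h1
        rw [h2, h4]
        apply Subtype.ext
        have := (hσ1 _ ((hT _).2 h)).2.2
        simp only [this]
      · obtain ⟨h1, h2⟩ := hfo z x h hzx
        obtain ⟨h3, h4⟩ := hfo x z h1 (Ne.symm hzx)
        rw [h2, h4])
    (by
      rintro ⟨⟨z, x⟩, h⟩
      apply Subtype.ext
      have := (hτ1 z x ((hF _ _).2 h)).2.2
      simp only [g, this])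
    (by
      rintro ⟨⟨z, x⟩, h⟩ he
      by_cases hzx : z = x
      · subst hzx
        obtain ⟨h1, h2⟩ := hfd z h
        rw [h2] at he
        exact (hσ1 _ ((hT _).2 h)).2.1 (congrArg (fun p => p.1.1) he)
      · obtain ⟨h1, h2⟩ := hfo z x h hzx
        rw [h2] at he
        exact hzx (congrArg (fun p => p.1.1) he).symm)
    (by
      rintro ⟨⟨z, x⟩, h⟩ he
      exact (hτ1 z x ((hF _ _).2 h)).2.1 (congrArg (fun p => p.1.2) he))
  let a : ℕ → ℕ → ℤ := fun z x => if h : (z, x) ∈ Ds then s ⟨(z, x), h⟩ else 0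
  have ha : ∀ z x (h : (z, x) ∈ Ds), a z x = s ⟨(z, x), h⟩ := fun z x h => by
    simp only [a, dif_pos h]
  have ha0 : ∀ z x, (z, x) ∉ Ds → a z x = 0 := fun z x h => by
    simp only [a, dif_neg h]
  have hkey : ∀ z, (∀ i, |∑ x ∈ F z with x < i, a z x| ≤ 1) ∧ ∑ x ∈ F z, a z x = 0 := by
    intro z
    refine hτ2 z (a z) (fun x hx => ?_) (fun x hx => ?_)
    · rw [ha z x ((hF _ _).1 hx)]
      exact hs0 _
    · rw [ha z x ((hF _ _).1 hx), ha z (τ z x) ((hF _ _).1 (hτ1 z x hx).1)]
      exact hs2 ⟨(z, x), (hF _ _).1 hx⟩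
  have hkeyT : (∀ i, |∑ z ∈ T with z < i, a z z| ≤ 1) ∧ ∑ z ∈ T, a z z = 0 := by
    refine hσ2 (fun z => a z z) (fun z hz => ?_) (fun z hz => ?_)
    · rw [ha z z ((hT _).1 hz)]
      exact hs0 _
    · obtain ⟨h1, h2⟩ := hfd z ((hT _).1 hz)
      rw [ha z z ((hT _).1 hz), ha (σ z) (σ z) h1, ← h2]
      exact hs1 _
  have hout : ∀ z x, x ∉ F z → a z x = 0 := fun z x h => ha0 z x fun h' => h ((hF _ _).2 h')
  have houtT : ∀ z, z ∉ T → a z z = 0 := fun z h => ha0 z z fun h' => h ((hT _).2 h')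
  have hFn : ∀ z x, x ∈ F z → x < n := fun z x h => by
    simp only [F, Finset.mem_filter, Finset.mem_range] at h
    exact h.1
  have hTn : ∀ z, z ∈ T → z < n := fun z h => by
    simp only [T, Finset.mem_filter, Finset.mem_range] at h
    exact h.1
  refine ⟨a, ?_, ?_, ?_, ?_, ?_, ?_, ?_, ?_⟩
  · intro z x h
    rw [ha z x ((hDs _).2 (Or.inl h))]
    exact hs0 _
  · intro z x h
    have hzx : z ≠ x := fun e => hirr z (by rw [← e] at h; exact h)
    obtain ⟨h1, h2⟩ := hfo z x ((hDs _).2 (Or.inl h)) hzx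
    rw [ha z x ((hDs _).2 (Or.inl h)), ha x z h1, ← h2]
    exact hs1 _
  · intro z x h hzx
    refine ha0 z x fun h' => ?_
    rcases (hDs _).1 h' with h1 | h1
    · exact h h1
    · exact hzx h1.1.symm
  · intro z i
    have h1 : ∑ x ∈ Finset.range i, a z x = ∑ x ∈ F z with x < i, a z x := by
      symm
      apply Finset.sum_subset
      · intro x hx
        rw [Finset.mem_filter] at hx
        exact Finset.mem_range.2 hx.2
      · intro x hx hx'
        apply hout
        intro h
        exact hx' (Finset.mem_filter.2 ⟨h, Finset.mem_range.1 hx⟩)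
    rw [h1]
    exact (hkey z).1 i
  · intro z
    have h1 : ∑ x ∈ Finset.range n, a z x = ∑ x ∈ F z, a z x := by
      symm
      apply Finset.sum_subset
      · intro x hx
        exact Finset.mem_range.2 (hFn z x hx)
      · intro x _ hx'
        exact hout z x hx'
    rw [h1]
    exact (hkey z).2
  · intro i
    have h1 : ∑ z ∈ Finset.range i, a z z = ∑ z ∈ T with z < i, a z z := by
      symm
      apply Finset.sum_subset
      · intro x hx
        rw [Finset.mem_filter] at hx
        exact Finset.mem_range.2 hx.2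
      · intro x hx hx'
        apply houtT
        intro h
        exact hx' (Finset.mem_filter.2 ⟨h, Finset.mem_range.1 hx⟩)
    rw [h1]
    exact hkeyT.1 i
  · have h1 : ∑ z ∈ Finset.range n, a z z = ∑ z ∈ T, a z z := by
      symm
      apply Finset.sum_subset
      · intro x hx
        exact Finset.mem_range.2 (hTn x hx)
      · intro x _ hx'
        exact houtT x hx'
    rw [h1]
    exact hkeyT.2
  · intro z
    by_cases h : (z, z) ∈ Ds
    · rw [ha z z h]
      rcases hs0 ⟨(z, z), h⟩ with h1 | h1 <;> rw [h1] <;> omega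
    · rw [ha0 z z h]
      omega

open Classical in
/-- The version of the previous theorem without the last clause. -/
theorem exists_balanced (n : ℕ) (U : ℕ → ℕ → Prop) (hsymm : ∀ i j, U i j → U j i)
    (hirr : ∀ i, ¬ U i i) (hsupp : ∀ i j, U i j → i < n) :
    ∃ a : ℕ → ℕ → ℤ, (∀ z x, U z x → a z x = 1 ∨ a z x = -1) ∧
      (∀ z x, U z x → a x z = - a z x) ∧
      (∀ z x, ¬ U z x → x ≠ z → a z x = 0) ∧
      (∀ z i, |∑ x ∈ Finset.range i, a z x| ≤ 1) ∧
      (∀ z, ∑ x ∈ Finset.range n, a z x = 0) ∧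
      (∀ i, |∑ z ∈ Finset.range i, a z z| ≤ 1) ∧
      ∑ z ∈ Finset.range n, a z z = 0 := by
  obtain ⟨a, h1, h2, h3, h4, h5, h6, h7, _⟩ := exists_balanced' n U hsymm hirr hsupp
  exact ⟨a, h1, h2, h3, h4, h5, h6, h7⟩

end Pool.MP0a002eH87
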