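import Pool.Agent.Lib.MP_0a002e_co_h87.Balanced

/-!
Digraphs whose 2-cycles carry a balanced orientation of small degree.
-/

set_option autoImplicit false

namespace Pool.MP0a002eH87

/-- In a `c`-connected digraph every cut has many arcs. -/
theorem cut_large_gen {V : Type*} [Fintype V] (c : ℕ) (R : V → V → Prop)
    (hn : c + 1 ≤ Fintype.card V)
    (hconn : ∀ S : Finset V, S.card < c → ∀ u v : V, u ∉ S → v ∉ S →
      Relation.ReflTransGen (fun a b => R a b ∧ a ∉ S ∧ b ∉ S) u v)
    (X B S : Finset V) (hX : X.Nonempty) (hB : B.Nonempty)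
    (hXB : Disjoint X B) (hXS : Disjoint X S) (hBS : Disjoint B S)
    (hcov : ∀ x, x ∈ X ∨ x ∈ B ∨ x ∈ S)
    (Q : Finset (V × V)) (hQ : ∀ x ∈ X, ∀ b ∈ B, R x b → (x, b) ∈ Q)
    (hQ' : ∀ p ∈ Q, p.1 ∈ X ∧ p.2 ∈ B) : c ≤ Q.card + S.card := by
  classical
  by_contra hlt
  push Not at hlt
  obtain ⟨x0, hx0, b0, hb0, hnR⟩ : ∃ x0 ∈ X, ∃ b0 ∈ B, (x0, b0) ∉ Q := by
    by_contra hall
    push Not at hall
    have h1 : X ×ˢ B ⊆ Q := by
      intro p hp
      rw [Finset.mem_product] at hp
      exact hall p.1 hp.1 p.2 hp.2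
    have h2 := Finset.card_le_card h1
    rw [Finset.card_product] at h2
    have h3 : Fintype.card V ≤ X.card + B.card + S.card := by
      have h4 : Finset.univ ⊆ X ∪ (B ∪ S) := by
        intro x _
        rw [Finset.mem_union, Finset.mem_union]
        exact hcov x
      have h5 := Finset.card_le_card h4
      rw [Finset.card_univ] at h5
      have h6 := Finset.card_union_le X (B ∪ S)
      have h7 := Finset.card_union_le B S
      omega
    have h4 := hX.card_pos
    have h5 := hB.card_pos
    have h6 : X.card + B.card ≤ X.card * B.card + 1 := by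
      obtain ⟨p, hp⟩ : ∃ p, X.card = p + 1 := ⟨X.card - 1, by omega⟩
      obtain ⟨q, hq⟩ : ∃ q, B.card = q + 1 := ⟨B.card - 1, by omega⟩
      rw [hp, hq]
      nlinarith [Nat.zero_le (p * q)]
    omega
  let φ : V × V → V := fun p => if p.1 = x0 then p.2 else p.1
  let Z := Q.image φ
  have hZ : Z.card ≤ Q.card := Finset.card_image_le
  have hx0Z : x0 ∉ Z := by
    intro h
    obtain ⟨p, hp, he⟩ := Finset.mem_image.1 h
    dsimp only [φ] at he
    split_ifs at he with h1
    · exact Finset.disjoint_left.1 hXB hx0 (he ▸ (hQ' p hp).2)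
    · exact h1 he
  have hb0Z : b0 ∉ Z := by
    intro h
    obtain ⟨p, hp, he⟩ := Finset.mem_image.1 h
    dsimp only [φ] at he
    split_ifs at he with h1
    · apply hnR
      rw [← h1, ← he]
      exact hp
    · exact Finset.disjoint_left.1 hXB (he ▸ (hQ' p hp).1) hb0
  have hcard : (S ∪ Z).card < c := by
    have := Finset.card_union_le S Z
    omega
  have hpath := hconn (S ∪ Z) hcard x0 b0
    (by
      rw [Finset.mem_union]
      rintro (h | h)
      · exact Finset.disjoint_left.1 hXS hx0 h
      · exact hx0Z h)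
    (by
      rw [Finset.mem_union]
      rintro (h | h)
      · exact Finset.disjoint_left.1 hBS hb0 h
      · exact hb0Z h)
  have hinv : ∀ v, Relation.ReflTransGen (fun a b => R a b ∧ a ∉ S ∪ Z ∧ b ∉ S ∪ Z) x0 v →
      v ∈ X := by
    intro v hv
    induction hv with
    | refl => exact hx0
    | @tail y z _ hyz ih =>
      obtain ⟨h1, h2, h3⟩ := hyz
      rcases hcov z with h | h | h
      · exact h
      · exfalso
        have h4 := hQ y ih z h h1
        have h5 : φ (y, z) ∈ Z := Finset.mem_image_of_mem _ h4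
        dsimp only [φ] at h5
        split_ifs at h5
        · exact h3 (Finset.mem_union_right _ h5)
        · exact h2 (Finset.mem_union_right _ h5)
      · exact absurd (Finset.mem_union_left _ h) h3
  exact Finset.disjoint_left.1 hXB (hinv b0 hpath) hb0

open Classical in
/-- If the 2-cycles of `D` carry an oriented subgraph `E` of in-degree at most `d` and total
imbalance at most `r`, then connectivity `k + d (k - 1) + r` is enough. -/
theorem main_balanced {V : Type*} [Fintype V] (k d r : ℕ) (D : V → V → Prop) (hk : 1 ≤ k)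
    (E : V → V → Prop) (hED : ∀ a b, E a b → D a b) (hE2 : ∀ a b, E a b → ¬ E b a)
    (hE : ∀ a b, a ≠ b → D a b → D b a → E a b ∨ E b a)
    (hbal : ∑ v, ((Finset.univ.filter fun u => E u v).card -
      (Finset.univ.filter fun u => E v u).card) ≤ r)
    (hdeg : ∀ v, (Finset.univ.filter fun u => E u v).card ≤ d)
    (hcard : k + d * (k - 1) + r + 1 ≤ Fintype.card V)
    (hconn : ∀ S : Finset V, S.card < k + d * (k - 1) + r → ∀ u v : V, u ∉ S → v ∉ S →
      Relation.ReflTransGen (fun a b => D a b ∧ a ∉ S ∧ b ∉ S) u v) :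
    ∃ H : V → V → Prop, (∀ a b, H a b → D a b) ∧ (∀ a b, H a b → ¬ H b a) ∧
      ∀ S : Finset V, S.card < k → ∀ u v : V, u ∉ S → v ∉ S →
        Relation.ReflTransGen (fun a b => H a b ∧ a ∉ S ∧ b ∉ S) u v := by
  let H : V → V → Prop := fun a b => (D a b ∧ ¬ D b a) ∨ E a b
  refine ⟨H, ?_, ?_, ?_⟩
  · rintro a b (h | h)
    · exact h.1
    · exact hED _ _ h
  · rintro a b (h | h) (h' | h')
    · exact h.2 h'.1
    · exact h.2 (hED _ _ h')
    · exact h'.2 (hED _ _ h)
    · exact hE2 _ _ h h'
  · intro S hS u v huS hvS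
    by_contra hno
    let X : Finset V := Finset.univ.filter fun x =>
      Relation.ReflTransGen (fun a b => H a b ∧ a ∉ S ∧ b ∉ S) u x
    let B : Finset V := Finset.univ.filter fun x => x ∉ X ∧ x ∉ S
    have hXm : ∀ x, x ∈ X ↔ Relation.ReflTransGen (fun a b => H a b ∧ a ∉ S ∧ b ∉ S) u x := by
      intro x
      simp only [X, Finset.mem_filter, Finset.mem_univ, true_and]
    have hBm : ∀ x, x ∈ B ↔ x ∉ X ∧ x ∉ S := by
      intro x
      simp only [B, Finset.mem_filter, Finset.mem_univ, true_and]
    have hXu : u ∈ X := (hXm u).2 Relation.ReflTransGen.refl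
    have hXv : v ∉ X := fun h => hno ((hXm v).1 h)
    have hXS : ∀ x, x ∈ X → x ∉ S := by
      intro x hx
      rcases Relation.ReflTransGen.cases_tail ((hXm x).1 hx) with h | ⟨y, _, h⟩
      · rw [h]; exact huS
      · exact h.2.2
    have hclosed : ∀ x y, x ∈ X → H x y → y ∉ S → y ∈ X := fun x y hx hxy hy =>
      (hXm y).2 (((hXm x).1 hx).tail ⟨hxy, hXS x hx, hy⟩)
    have hdXS : Disjoint X S := Finset.disjoint_left.2 fun x hx => hXS x hx
    have hdBS : Disjoint B S := Finset.disjoint_left.2 fun x hx => ((hBm x).1 hx).2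
    have hdXB : Disjoint X B := Finset.disjoint_left.2 fun x hx hx' => ((hBm x).1 hx').1 hx
    let e : V → V → ℕ := fun a b => if E a b then 1 else 0
    have hout : ∀ a, ∑ b, e a b = (Finset.univ.filter fun b => E a b).card := by
      intro a
      rw [Finset.card_filter]
    have hin : ∀ a, ∑ b, e b a = (Finset.univ.filter fun b => E b a).card := by
      intro a
      rw [Finset.card_filter]
    have huniv : (Finset.univ : Finset V) = X ∪ (B ∪ S) := by
      ext x
      simp only [Finset.mem_univ, Finset.mem_union, true_iff]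
      by_cases h : x ∈ X
      · exact Or.inl h
      · by_cases h' : x ∈ S
        · exact Or.inr (Or.inr h')
        · exact Or.inr (Or.inl ((hBm x).2 ⟨h, h'⟩))
    have hsplit : ∀ f : V → ℕ, ∑ x, f x = ∑ x ∈ X, f x + ∑ x ∈ B, f x + ∑ x ∈ S, f x := by
      intro f
      rw [huniv, Finset.sum_union, Finset.sum_union hdBS, add_assoc]
      rw [Finset.disjoint_union_right]
      exact ⟨hdXB, hdXS⟩
    have hbalX : ∑ x ∈ X, ∑ b, e b x ≤ ∑ x ∈ X, ∑ b, e x b + r := by
      have h1 : ∑ x ∈ X, ∑ b, e b x ≤ ∑ x ∈ X, ((∑ b, e x b) +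
          ((Finset.univ.filter fun u => E u x).card -
            (Finset.univ.filter fun u => E x u).card)) := by
        refine Finset.sum_le_sum fun x _ => ?_
        rw [hout, hin]
        omega
      rw [Finset.sum_add_distrib] at h1
      have h2 : ∑ x ∈ X, ((Finset.univ.filter fun u => E u x).card -
          (Finset.univ.filter fun u => E x u).card) ≤ r :=
        le_trans (Finset.sum_le_univ_sum_of_nonneg fun x => Nat.zero_le _) hbal
      omega
    rw [Finset.sum_congr rfl fun x _ => hsplit (fun b => e b x),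
      Finset.sum_congr rfl fun x _ => hsplit (e x), Finset.sum_add_distrib,
      Finset.sum_add_distrib, Finset.sum_add_distrib, Finset.sum_add_distrib,
      Finset.sum_comm (s := X) (t := X)] at hbalX
    have hXB0 : ∑ x ∈ X, ∑ b ∈ B, e x b = 0 := by
      refine Finset.sum_eq_zero fun x hx => Finset.sum_eq_zero fun b hb => ?_
      have h1 := (hBm b).1 hb
      simp only [e, if_neg fun h : E x b => h1.1 (hclosed x b hx (Or.inr h) h1.2)]
    have hXSd : ∑ x ∈ X, ∑ b ∈ S, e x b ≤ S.card * d := by
      rw [Finset.sum_comm, ← smul_eq_mul]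
      refine Finset.sum_le_card_nsmul _ _ _ fun z _ => ?_
      refine le_trans ?_ (hdeg z)
      rw [← hin z]
      exact Finset.sum_le_univ_sum_of_nonneg fun x => Nat.zero_le _
    have hBX : ∑ x ∈ X, ∑ b ∈ B, e b x ≤ S.card * d + r := by omega
    let Q : Finset (V × V) := (X ×ˢ B).filter fun p => E p.2 p.1
    have hQc : Q.card = ∑ x ∈ X, ∑ b ∈ B, e b x := by
      rw [← Finset.sum_product' (f := fun x b => e b x), Finset.card_filter]
    have hfin := cut_large_gen _ D hcard hconn X B S ⟨u, hXu⟩ ⟨v, (hBm v).2 ⟨hXv, hvS⟩⟩ hdXB hdXS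
      hdBS (fun x => by
        have : x ∈ X ∪ (B ∪ S) := huniv ▸ Finset.mem_univ x
        simpa [Finset.mem_union] using this) Q
      (by
        intro x hx b hb hxb
        have h1 := (hBm b).1 hb
        have hnH : ¬ H x b := fun h => h1.1 (hclosed x b hx h h1.2)
        have hbx : D b x := by
          by_contra h
          exact hnH (Or.inl ⟨hxb, h⟩)
        have hne : x ≠ b := fun h => h1.1 (h ▸ hx)
        rw [Finset.mem_filter, Finset.mem_product]
        refine ⟨⟨hx, hb⟩, ?_⟩
        exact (hE x b hne hxb hbx).resolve_left fun h => hnH (Or.inr h))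
      (fun p hp => Finset.mem_product.1 (Finset.mem_filter.1 hp).1)
    have h1 : S.card * d ≤ d * (k - 1) := by
      rw [mul_comm]
      exact Nat.mul_le_mul_left _ (by omega)
    omega

open Classical in
/-- A graph has an orientation whose in- and out-degrees differ by at most one. -/
theorem exists_eulerian {V : Type*} [Fintype V] (U : V → V → Prop) (hsymm : ∀ a b, U a b → U b a)
    (hirr : ∀ a, ¬ U a a) (d r : ℕ) (hd : ∀ v, (Finset.univ.filter fun u => U v u).card ≤ 2 * d)
    (hr : (Finset.univ.filter fun v => Odd (Finset.univ.filter fun u => U v u).card).card ≤ 2 * r) :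
    ∃ E : V → V → Prop, (∀ a b, E a b → U a b) ∧ (∀ a b, E a b → ¬ E b a) ∧
      (∀ a b, U a b → E a b ∨ E b a) ∧
      (∑ v, ((Finset.univ.filter fun u => E u v).card -
        (Finset.univ.filter fun u => E v u).card) ≤ r) ∧
      ∀ v, (Finset.univ.filter fun u => E u v).card ≤ d := by
  obtain ⟨e⟩ := Fintype.truncEquivFin V |>.nonempty
  obtain ⟨n, hn⟩ : ∃ n, n = Fintype.card V := ⟨_, rfl⟩
  obtain ⟨UN, hUN⟩ : ∃ UN : ℕ → ℕ → Prop, ∀ i j, UN i j ↔
      ∃ (hi : i < Fintype.card V) (hj : j < Fintype.card V), U (e.symm ⟨i, hi⟩) (e.symm ⟨j, hj⟩) :=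
    ⟨_, fun _ _ => Iff.rfl⟩
  have hU' : ∀ a b, UN (e a) (e b) ↔ U a b := by
    intro a b
    rw [hUN]
    constructor
    · rintro ⟨h1, h2, h3⟩
      simpa using h3
    · intro h
      exact ⟨(e a).2, (e b).2, by simpa using h⟩
  obtain ⟨a, ha1, ha2, ha3, _, ha5, _, ha7, ha8⟩ := exists_balanced' (Fintype.card V) UN
    (fun i j h => by
      obtain ⟨h1, h2, h3⟩ := (hUN _ _).1 h
      exact (hUN _ _).2 ⟨h2, h1, hsymm _ _ h3⟩)
    (fun i h => by
      obtain ⟨h1, h2, h3⟩ := (hUN _ _).1 h
      exact hirr _ h3)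
    (fun i j h => ((hUN _ _).1 h).1)
  have hsumconv : ∀ (v : V), ∑ u : V, a (e v) (e u) = 0 := by
    intro v
    have h1 := ha5 (e v)
    rw [Finset.sum_range (fun x => a (e v) x)] at h1
    rw [← h1]
    exact Equiv.sum_comp e (fun i : Fin (Fintype.card V) => a (e v) i)
  obtain ⟨E, hEd⟩ : ∃ E : V → V → Prop, ∀ x y, E x y ↔ (U x y ∧ a (e x) (e y) = 1) :=
    ⟨fun x y => U x y ∧ a (e x) (e y) = 1, fun _ _ => Iff.rfl⟩
  have hanti : ∀ x y, U x y → a (e y) (e x) = - a (e x) (e y) := fun x y h =>
    ha2 _ _ ((hU' x y).2 h)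
  have hEr : ∀ x y, E y x ↔ (U x y ∧ a (e x) (e y) = -1) := by
    intro x y
    rw [hEd]
    constructor
    · rintro ⟨h1, h2⟩
      have h3 := hanti y x h1
      exact ⟨hsymm _ _ h1, by omega⟩
    · rintro ⟨h1, h2⟩
      have h3 := hanti x y h1
      exact ⟨hsymm _ _ h1, by omega⟩
  have hcount : ∀ v, ((Finset.univ.filter fun u => E v u).card : ℤ) -
      ((Finset.univ.filter fun u => E u v).card : ℤ) + a (e v) (e v) = 0 := by
    intro v
    have h1 : ∀ u, a (e v) (e u) = (if E v u then (1 : ℤ) else 0) - (if E u v then (1 : ℤ) else 0) +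
        (if u = v then a (e v) (e v) else 0) := by
      intro u
      by_cases hUv : U v u
      · have hne : u ≠ v := fun h => hirr v (h ▸ hUv)
        rcases ha1 _ _ ((hU' v u).2 hUv) with h | h
        · have k1 : E v u := (hEd v u).2 ⟨hUv, h⟩
          have k2 : ¬ E u v := by
            rw [hEr]
            rintro ⟨_, h'⟩
            omega
          simp [k1, k2, hne, h]
        · have k1 : ¬ E v u := by
            rw [hEd]
            rintro ⟨_, h'⟩
            omega
          have k2 : E u v := (hEr v u).2 ⟨hUv, h⟩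
          simp [k1, k2, hne, h]
      · have k1 : ¬ E v u := fun h => hUv ((hEd _ _).1 h).1
        have k2 : ¬ E u v := fun h => hUv (hsymm _ _ ((hEd _ _).1 h).1)
        by_cases hne : u = v
        · subst hne
          simp [k1]
        · have h2 := ha3 (e v) (e u) (fun h => hUv ((hU' v u).1 h)) (by
            intro h
            apply hne
            exact e.injective (Fin.ext h))
          simp [k1, k2, hne, h2]
    have h2 := hsumconv v
    rw [Finset.sum_congr rfl fun u _ => h1 u, Finset.sum_add_distrib, Finset.sum_sub_distrib,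
      Finset.sum_boole, Finset.sum_boole] at h2
    simpa using h2
  have hsum2 : ∀ v, (Finset.univ.filter fun u => E v u).card +
      (Finset.univ.filter fun u => E u v).card = (Finset.univ.filter fun u => U v u).card := by
    intro v
    rw [← Finset.card_union_of_disjoint]
    · congr 1
      ext u
      simp only [Finset.mem_union, Finset.mem_filter, Finset.mem_univ, true_and]
      constructor
      · rintro (h | h)
        · exact ((hEd _ _).1 h).1
        · exact hsymm _ _ ((hEd _ _).1 h).1
      · intro h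
        rcases ha1 _ _ ((hU' v u).2 h) with h' | h'
        · exact Or.inl ((hEd _ _).2 ⟨h, h'⟩)
        · exact Or.inr ((hEr v u).2 ⟨h, h'⟩)
    · rw [Finset.disjoint_left]
      intro u hu hu'
      have h1 := (hEd _ _).1 (Finset.mem_filter.1 hu).2
      have h2 := (hEr v u).1 (Finset.mem_filter.1 hu').2
      have h3 := h1.2
      omega
  have hdiag : ∀ v, Even (Finset.univ.filter fun u => U v u).card → a (e v) (e v) = 0 := by
    intro v hv
    have h1 := hcount v
    have h2 := hsum2 v
    obtain ⟨r, hr⟩ := hv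
    have h3 := ha8 (e v)
    omega
  have hdsum : ∑ v : V, a (e v) (e v) = 0 := by
    have h1 := ha7
    rw [Finset.sum_range (fun x => a x x)] at h1
    rw [← h1]
    exact Equiv.sum_comp e (fun i : Fin (Fintype.card V) => a i i)
  refine ⟨E, fun _ _ h => ((hEd _ _).1 h).1, ?_, ?_, ?_, ?_⟩
  · intro x y h h'
    have h1 := (hEr x y).1 h'
    have h2 := ((hEd _ _).1 h).2
    omega
  · intro x y h
    rcases ha1 _ _ ((hU' x y).2 h) with h' | h'
    · exact Or.inl ((hEd _ _).2 ⟨h, h'⟩)
    · exact Or.inr ((hEr x y).2 ⟨h, h'⟩)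
  · have h1 : ∀ v : V, (2 : ℤ) * (((Finset.univ.filter fun u => E u v).card -
        (Finset.univ.filter fun u => E v u).card : ℕ) : ℤ) ≤ a (e v) (e v) +
        if Odd (Finset.univ.filter fun u => U v u).card then 1 else 0 := by
      intro v
      have h2 := hcount v
      have h3 := ha8 (e v)
      split_ifs with h4
      · have h5 := hsum2 v
        obtain ⟨q, hq⟩ := h4
        omega
      · have h5 := hdiag v (Nat.not_odd_iff_even.1 h4)
        omega
    have h2 := Finset.sum_le_sum fun v (_ : v ∈ (Finset.univ : Finset V)) => h1 v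
    rw [Finset.sum_add_distrib, hdsum, Finset.sum_boole, ← Finset.mul_sum, ← Nat.cast_sum] at h2
    push_cast at h2
    zify
    zify at hr
    linarith
  · intro v
    have h1 := hcount v
    have h2 := hsum2 v
    have h3 := ha8 (e v)
    have h4 := hd v
    omega

end Pool.MP0a002eH87
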