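import Mathlib

/-!
The Gallai-Milgram theorem: a digraph without independent sets of more than `m` vertices is
covered by at most `m` vertex-disjoint directed paths.
-/

set_option autoImplicit false

namespace Pool.MP0a002eH87

variable {V : Type*} [DecidableEq V]

/-- `Cov R W E`: the set `W` is covered by vertex-disjoint directed paths with set of last
vertices `E`. -/
inductive Cov (R : V → V → Prop) : Finset V → Finset V → Prop
  | empty : Cov R ∅ ∅
  | new {W E : Finset V} (v : V) (h : Cov R W E) (hv : v ∉ W) : Cov R (insert v W) (insert v E)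
  | ext {W E : Finset V} (v e : V) (h : Cov R W E) (hv : v ∉ W) (he : e ∈ E) (hR : R e v) :
      Cov R (insert v W) (insert v (E.erase e))

theorem Cov.sub {R : V → V → Prop} {W E : Finset V} (h : Cov R W E) : E ⊆ W := by
  induction h with
  | empty => exact subset_rfl
  | new v h hv ih => exact Finset.insert_subset_insert _ ih
  | ext v e h hv he hR ih =>
    exact Finset.insert_subset_insert _ ((Finset.erase_subset _ _).trans ih)

theorem cov_all (R : V → V → Prop) (W : Finset V) : Cov R W W := by
  induction W using Finset.induction_on with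
  | empty => exact Cov.empty
  | insert v W hv ih => exact Cov.new v ih hv

theorem Cov.remove {R : V → V → Prop} {W E : Finset V} (h : Cov R W E) (x : V) (hx : x ∈ E) :
    Cov R (W.erase x) (E.erase x) ∨ ∃ v ∈ W.erase x, v ∉ E ∧ R v x ∧
      Cov R (W.erase x) (insert v (E.erase x)) := by
  induction h with
  | empty => simp at hx
  | @new W E w h hw ih =>
    by_cases hwx : w = x
    · subst hwx
      left
      rw [Finset.erase_insert hw, Finset.erase_insert (fun h' => hw (h.sub h'))]
      exact h
    · have hxE : x ∈ E := by
        rcases Finset.mem_insert.1 hx with h' | h'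
        · exact absurd h'.symm hwx
        · exact h'
      have hw' : w ∉ W.erase x := fun h' => hw (Finset.mem_of_mem_erase h')
      rw [Finset.erase_insert_of_ne hwx, Finset.erase_insert_of_ne hwx]
      rcases ih hxE with h1 | ⟨v, hv1, hv2, hv3, hv4⟩
      · exact Or.inl (Cov.new w h1 hw')
      · right
        have hvw : v ≠ w := fun e => hw' (e ▸ hv1)
        refine ⟨v, Finset.mem_insert_of_mem hv1, ?_, hv3, ?_⟩
        · rw [Finset.mem_insert]
          rintro (h' | h')
          · exact hvw h'
          · exact hv2 h'
        · rw [Finset.insert_comm]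
          exact Cov.new w hv4 hw'
  | @ext W E w e h hw he hR ih =>
    by_cases hwx : w = x
    · subst hwx
      right
      have hwE : w ∉ E.erase e := fun h' => hw (h.sub (Finset.mem_of_mem_erase h'))
      refine ⟨e, ?_, ?_, hR, ?_⟩
      · rw [Finset.erase_insert hw]
        exact h.sub he
      · rw [Finset.mem_insert]
        rintro (h' | h')
        · exact hw (h' ▸ h.sub he)
        · exact (Finset.mem_erase.1 h').1 rfl
      · rw [Finset.erase_insert hw, Finset.erase_insert hwE, Finset.insert_erase he]
        exact h
    · have hxE' : x ∈ E.erase e := by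
        rcases Finset.mem_insert.1 hx with h' | h'
        · exact absurd h'.symm hwx
        · exact h'
      obtain ⟨hxe, hxE⟩ := Finset.mem_erase.1 hxE'
      have hw' : w ∉ W.erase x := fun h' => hw (Finset.mem_of_mem_erase h')
      rw [Finset.erase_insert_of_ne hwx, Finset.erase_insert_of_ne hwx]
      rcases ih hxE with h1 | ⟨v, hv1, hv2, hv3, hv4⟩
      · left
        rw [Finset.erase_right_comm]
        exact Cov.ext w e h1 hw' (Finset.mem_erase.2 ⟨Ne.symm hxe, he⟩) hR
      · right
        have hvw : v ≠ w := fun e' => hw' (e' ▸ hv1)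
        have hve : v ≠ e := fun e' => hv2 (e' ▸ he)
        refine ⟨v, Finset.mem_insert_of_mem hv1, ?_, hv3, ?_⟩
        · rw [Finset.mem_insert]
          rintro (h' | h')
          · exact hvw h'
          · exact hv2 (Finset.mem_of_mem_erase h')
        · have h2 := Cov.ext w e hv4 hw' (Finset.mem_insert_of_mem
            (Finset.mem_erase.2 ⟨Ne.symm hxe, he⟩)) hR
          rw [Finset.erase_insert_of_ne hve, Finset.insert_comm, Finset.erase_right_comm] at h2
          exact h2

/-- A path cover with minimal set of last vertices has an independent set of the same size. -/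
theorem indep_of_minimal (R : V → V → Prop) : ∀ (N : ℕ) (W E : Finset V), W.card = N →
    Cov R W E → (∀ E', Cov R W E' → ¬ E' ⊂ E) →
    ∃ A ⊆ W, (∀ a ∈ A, ∀ b ∈ A, a ≠ b → ¬ R a b) ∧ A.card = E.card := by
  intro N
  induction N with
  | zero =>
    intro W E hW h _
    have : W = ∅ := Finset.card_eq_zero.1 hW
    subst this
    have h1 := h.sub
    exact ⟨E, h1, fun a ha => absurd (h1 ha) (Finset.notMem_empty a), rfl⟩
  | succ N ih =>
    intro W E hW h hmin
    by_cases hind : ∀ a ∈ E, ∀ b ∈ E, a ≠ b → ¬ R a b
    · exact ⟨E, h.sub, hind, rfl⟩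
    push Not at hind
    obtain ⟨y, hy, x, hx, hyx, hR⟩ := hind
    have hxW := h.sub hx
    have hcard : (W.erase x).card = N := by rw [Finset.card_erase_of_mem hxW]; omega
    have hins : insert x (W.erase x) = W := Finset.insert_erase hxW
    have hxW' : x ∉ W.erase x := Finset.notMem_erase x W
    have hyE : y ∈ E.erase x := Finset.mem_erase.2 ⟨hyx, hy⟩
    rcases h.remove x hx with h1 | ⟨v, hv1, hv2, hv3, hv4⟩
    · exfalso
      have h2 := Cov.ext x y h1 hxW' hyE hR
      rw [hins] at h2
      refine hmin _ h2 ?_
      rw [Finset.ssubset_iff_of_subset]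
      · refine ⟨y, hy, ?_⟩
        rw [Finset.mem_insert]
        rintro (h' | h')
        · exact hyx h'
        · exact (Finset.mem_erase.1 h').1 rfl
      · intro z hz
        rcases Finset.mem_insert.1 hz with h' | h'
        · rw [h']; exact hx
        · exact Finset.mem_of_mem_erase (Finset.mem_of_mem_erase h')
    · obtain ⟨A, hA1, hA2, hA3⟩ := ih (W.erase x) _ hcard hv4 (by
        intro E'' h'' hss
        have hsub := hss.subset
        have hxE'' : x ∉ E'' := fun h' => hxW' (h''.sub h')
        by_cases hvE : v ∈ E''
        · have h2 := Cov.ext x v h'' hxW' hvE hv3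
          rw [hins] at h2
          refine hmin _ h2 ?_
          obtain ⟨z, hz, hz'⟩ := (Finset.ssubset_iff_of_subset hsub).1 hss
          have hzv : z ≠ v := fun e => hz' (e ▸ hvE)
          have hzE : z ∈ E.erase x := (Finset.mem_insert.1 hz).resolve_left hzv
          rw [Finset.ssubset_iff_of_subset]
          · refine ⟨z, Finset.mem_of_mem_erase hzE, ?_⟩
            rw [Finset.mem_insert]
            rintro (h' | h')
            · exact (Finset.mem_erase.1 hzE).1 h'
            · exact hz' (Finset.mem_of_mem_erase h')
          · intro w hw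
            rcases Finset.mem_insert.1 hw with h' | h'
            · rw [h']; exact hx
            · obtain ⟨h3, h4⟩ := Finset.mem_erase.1 h'
              exact Finset.mem_of_mem_erase ((Finset.mem_insert.1 (hsub h4)).resolve_left h3)
        · have hsub' : ∀ w ∈ E'', w ∈ E.erase x := by
            intro w hw
            exact (Finset.mem_insert.1 (hsub hw)).resolve_left fun e => hvE (e ▸ hw)
          by_cases hyE'' : y ∈ E''
          · have h2 := Cov.ext x y h'' hxW' hyE'' hR
            rw [hins] at h2
            refine hmin _ h2 ?_
            rw [Finset.ssubset_iff_of_subset]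
            · refine ⟨y, hy, ?_⟩
              rw [Finset.mem_insert]
              rintro (h' | h')
              · exact hyx h'
              · exact (Finset.mem_erase.1 h').1 rfl
            · intro w hw
              rcases Finset.mem_insert.1 hw with h' | h'
              · rw [h']; exact hx
              · exact Finset.mem_of_mem_erase (hsub' w (Finset.mem_of_mem_erase h'))
          · have h2 := Cov.new x h'' hxW'
            rw [hins] at h2
            refine hmin _ h2 ?_
            rw [Finset.ssubset_iff_of_subset]
            · refine ⟨y, hy, ?_⟩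
              rw [Finset.mem_insert]
              rintro (h' | h')
              · exact hyx h'
              · exact hyE'' h'
            · intro w hw
              rcases Finset.mem_insert.1 hw with h' | h'
              · rw [h']; exact hx
              · exact Finset.mem_of_mem_erase (hsub' w h'))
      refine ⟨A, hA1.trans (Finset.erase_subset _ _), hA2, ?_⟩
      rw [hA3, Finset.card_insert_of_notMem (fun h' => hv2 (Finset.mem_of_mem_erase h')),
        Finset.card_erase_of_mem hx]
      have := Finset.card_pos.2 ⟨x, hx⟩
      omega

/-- The paths of a cover as lists. -/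
theorem Cov.lists {R : V → V → Prop} {W E : Finset V} (h : Cov R W E) :
    ∃ P : List (List V), P.length = E.card ∧ (∀ p ∈ P, p.IsChain R) ∧ P.flatten.Nodup ∧
      (∀ v, v ∈ P.flatten ↔ v ∈ W) ∧ ∀ e ∈ E, ∃ p ∈ P, p.getLast? = some e := by
  induction h with
  | empty => exact ⟨[], by simp, by simp, by simp, by simp, by simp⟩
  | @new W E w h hw ih =>
    obtain ⟨P, h1, h2, h3, h4, h5⟩ := ih
    refine ⟨[w] :: P, ?_, ?_, ?_, ?_, ?_⟩
    · rw [List.length_cons, h1, Finset.card_insert_of_notMem (fun h' => hw (h.sub h'))]
    · intro p hp
      rcases List.mem_cons.1 hp with h' | h'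
      · rw [h']; exact List.IsChain.singleton w
      · exact h2 p h'
    · rw [List.flatten_cons, List.singleton_append, List.nodup_cons]
      exact ⟨fun h' => hw ((h4 w).1 h'), h3⟩
    · intro v
      rw [List.flatten_cons, List.singleton_append, List.mem_cons, h4, Finset.mem_insert]
    · intro e he
      rcases Finset.mem_insert.1 he with h' | h'
      · exact ⟨[w], List.mem_cons_self, by simp [h']⟩
      · obtain ⟨p, hp, hp'⟩ := h5 e h'
        exact ⟨p, List.mem_cons_of_mem _ hp, hp'⟩
  | @ext W E w e h hw he hR ih =>
    obtain ⟨P, h1, h2, h3, h4, h5⟩ := ih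
    obtain ⟨p, hp, hpe⟩ := h5 e he
    obtain ⟨P1, P2, rfl⟩ := List.append_of_mem hp
    have hflat : (P1 ++ (p ++ [w]) :: P2).flatten.Perm (w :: (P1 ++ p :: P2).flatten) := by
      simp only [List.flatten_append, List.flatten_cons, List.append_assoc, List.singleton_append]
      have e1 : (P1.flatten ++ (p ++ w :: P2.flatten)) =
          (P1.flatten ++ p) ++ w :: P2.flatten := by simp
      have e2 : P1.flatten ++ (p ++ P2.flatten) = (P1.flatten ++ p) ++ P2.flatten := by simp
      rw [e1, e2]
      exact List.perm_middle
    refine ⟨P1 ++ (p ++ [w]) :: P2, ?_, ?_, ?_, ?_, ?_⟩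
    · have h6 : (E.erase e).card + 1 = E.card := Finset.card_erase_add_one he
      rw [Finset.card_insert_of_notMem (fun h' => hw (h.sub (Finset.mem_of_mem_erase h'))), h6,
        ← h1]
      simp
    · intro q hq
      rcases List.mem_append.1 hq with h' | h'
      · exact h2 q (List.mem_append_left _ h')
      · rcases List.mem_cons.1 h' with h'' | h''
        · rw [h'', List.isChain_append]
          refine ⟨h2 p hp, List.IsChain.singleton w, ?_⟩
          intro x hx y hy
          rw [hpe] at hx
          simp only [Option.mem_def, Option.some.injEq, List.head?_cons] at hx hy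
          rw [← hx, ← hy]
          exact hR
        · exact h2 q (List.mem_append_right _ (List.mem_cons_of_mem _ h''))
    · rw [hflat.nodup_iff, List.nodup_cons]
      exact ⟨fun h' => hw ((h4 w).1 h'), h3⟩
    · intro v
      rw [hflat.mem_iff, List.mem_cons, h4, Finset.mem_insert]
    · intro e' he'
      rcases Finset.mem_insert.1 he' with h' | h'
      · exact ⟨p ++ [w], by simp, by simp [h']⟩
      · obtain ⟨h6, h7⟩ := Finset.mem_erase.1 h'
        obtain ⟨q, hq, hqe⟩ := h5 e' h7
        refine ⟨q, ?_, hqe⟩
        rcases List.mem_append.1 hq with h8 | h8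
        · exact List.mem_append_left _ h8
        · rcases List.mem_cons.1 h8 with h9 | h9
          · exfalso
            rw [h9, hpe] at hqe
            exact h6 (Option.some.inj hqe).symm
          · exact List.mem_append_right _ (List.mem_cons_of_mem _ h9)

/-- **Gallai-Milgram.** -/
theorem gallai_milgram [Fintype V] (R : V → V → Prop) (m : ℕ)
    (hm : ∀ A : Finset V, (∀ a ∈ A, ∀ b ∈ A, a ≠ b → ¬ R a b) → A.card ≤ m) :
    ∃ P : List (List V), P.length ≤ m ∧ (∀ p ∈ P, p.IsChain R) ∧ P.flatten.Nodup ∧
      ∀ v, v ∈ P.flatten := by
  classical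
  let C : Finset (Finset V) := Finset.univ.filter fun E => Cov R Finset.univ E
  have hC : C.Nonempty := ⟨Finset.univ, Finset.mem_filter.2 ⟨Finset.mem_univ _, cov_all R _⟩⟩
  obtain ⟨E, hE, hmin⟩ := C.exists_min_image Finset.card hC
  have hcov := (Finset.mem_filter.1 hE).2
  obtain ⟨A, _, hA2, hA3⟩ := indep_of_minimal R _ Finset.univ E rfl hcov (by
    intro E' h' hss
    have h1 := hmin E' (Finset.mem_filter.2 ⟨Finset.mem_univ _, h'⟩)
    have h2 := Finset.card_lt_card hss
    omega)
  obtain ⟨P, h1, h2, h3, h4, _⟩ := hcov.lists
  refine ⟨P, ?_, h2, h3, fun v => (h4 v).2 (Finset.mem_univ _)⟩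
  rw [h1, ← hA3]
  exact hm A hA2

end Pool.MP0a002eH87
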