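import Pool.Agent.Lib.MP_0a002e_co_h87.Main
import Pool.Agent.Lib.MP_0a002e_co_h87.GM

/-!
Transport to digraphs covered by few vertex-disjoint directed paths.
-/

set_option autoImplicit false

namespace Pool.MP0a002eH87

open Classical in
/-- The number of consecutive pairs of a list which are not arcs. -/
noncomputable def bad {V : Type*} (R : V → V → Prop) : List V → ℕ
  | [] => 0
  | [_] => 0
  | a :: b :: l => (if R a b then 0 else 1) + bad R (b :: l)

theorem bad_append {V : Type*} (R : V → V → Prop) (q : List V) : ∀ p : List V, p.IsChain R →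
    bad R (p ++ q) ≤ bad R q + (if q = [] then 0 else 1)
  | [], _ => by simp
  | [a], _ => by
    rcases q with _ | ⟨b, q⟩
    · simp [bad]
    · rw [List.singleton_append, bad]
      simp only [reduceCtorEq, if_false]
      split_ifs <;> omega
  | a :: b :: p, h => by
    rw [List.isChain_cons_cons] at h
    have ih := bad_append R q (b :: p) h.2
    simp only [List.cons_append] at ih ⊢
    rw [bad, if_pos h.1, zero_add]
    exact ih

theorem bad_flatten {V : Type*} (R : V → V → Prop) : ∀ P : List (List V),
    (∀ p ∈ P, p.IsChain R) → bad R P.flatten ≤ P.length - 1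
  | [], _ => by simp [bad]
  | p :: P, h => by
    have h1 := bad_append R P.flatten p (h p List.mem_cons_self)
    have h2 := bad_flatten R P fun q hq => h q (List.mem_cons_of_mem _ hq)
    rw [List.flatten_cons, List.length_cons]
    split_ifs at h1 with h3
    · rw [h3] at h1 ⊢
      simp only [bad] at h1
      omega
    · have h4 : P ≠ [] := fun e => h3 (by rw [e]; rfl)
      have h5 := List.length_pos_of_ne_nil h4
      omega

open Classical in
theorem card_bad {V : Type*} (R : V → V → Prop) : ∀ l : List V,
    ((Finset.range (l.length - 1)).filter fun i =>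
      ¬ ∃ (hi : i < l.length) (hj : i + 1 < l.length), R l[i] l[i + 1]).card ≤ bad R l
  | [] => by simp
  | [_] => by simp
  | a :: b :: l => by
    have ih := card_bad R (b :: l)
    rw [Finset.card_filter] at ih ⊢
    have h1 : (a :: b :: l).length - 1 = (b :: l).length - 1 + 1 := by simp
    rw [h1, Finset.sum_range_succ', bad, add_comm]
    apply Nat.add_le_add
    · by_cases h : R a b
      · simp [h]
      · simp [h]
    · refine le_trans (Finset.sum_le_sum fun i hi => ?_) ih
      have h2 := Finset.mem_range.1 hi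
      by_cases h : ∃ (hi : i < (b :: l).length) (hj : i + 1 < (b :: l).length),
          R (b :: l)[i] (b :: l)[i + 1]
      · have h3 : ∃ (hi : i + 1 < (a :: b :: l).length) (hj : i + 1 + 1 < (a :: b :: l).length),
            R (a :: b :: l)[i + 1] (a :: b :: l)[i + 1 + 1] := by
          obtain ⟨k1, k2, k3⟩ := h
          refine ⟨by simp only [List.length_cons] at k1 k2 ⊢; omega,
            by simp only [List.length_cons] at k1 k2 ⊢; omega, ?_⟩
          simpa using k3
        rw [if_neg (not_not.2 h3)]
        exact Nat.zero_le _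
      · rw [if_pos h]
        split_ifs <;> omega

/-- **Main theorem**, for digraphs covered by at most `m` vertex-disjoint directed paths. -/
theorem main_paths {V : Type*} [Fintype V] (k m : ℕ) (D : V → V → Prop) (hk : 1 ≤ k)
    (P : List (List V)) (hPm : P.length ≤ m) (hP : ∀ p ∈ P, p.IsChain D) (hnd : P.flatten.Nodup)
    (hall : ∀ v, v ∈ P.flatten)
    (hcard : k * (2 * k + 2 * m - 1) + (m - 1) + 1 ≤ Fintype.card V)
    (hconn : ∀ S : Finset V, S.card < k * (2 * k + 2 * m - 1) + (m - 1) → ∀ u v : V, u ∉ S →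
      v ∉ S → Relation.ReflTransGen (fun a b => D a b ∧ a ∉ S ∧ b ∉ S) u v) :
    ∃ H : V → V → Prop, (∀ a b, H a b → D a b) ∧ (∀ a b, H a b → ¬ H b a) ∧
      ∀ S : Finset V, S.card < k → ∀ u v : V, u ∉ S → v ∉ S →
        Relation.ReflTransGen (fun a b => H a b ∧ a ∉ S ∧ b ∉ S) u v := by
  classical
  obtain ⟨l, hl⟩ : ∃ l, l = P.flatten := ⟨_, rfl⟩
  have hbad : bad D l ≤ m - 1 := by
    rw [hl]
    have := bad_flatten D P hP
    omega
  rw [← hl] at hnd hall
  have hn : l.length = Fintype.card V := by
    rw [← List.toFinset_card_of_nodup hnd, ← Finset.card_univ]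
    congr 1
    ext v
    simp [hall v]
  have hm1 : 1 ≤ m := by
    rcases Nat.eq_zero_or_pos m with h | h
    · exfalso
      have h1 : P = [] := List.length_eq_zero_iff.1 (by omega)
      rw [h1] at hl
      rw [hl] at hn
      simp only [List.flatten_nil, List.length_nil] at hn
      omega
    · exact h
  have hidx : ∀ v, l.idxOf v < l.length := fun v => List.idxOf_lt_length_iff.2 (hall v)
  have hget : ∀ v, l[l.idxOf v]'(hidx v) = v := fun v => List.getElem_idxOf (hidx v)
  have hget' : ∀ i (hi : i < l.length), l.idxOf l[i] = i := fun i hi => hnd.idxOf_getElem i hi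
  have hinj : Function.Injective fun v => l.idxOf v := by
    intro u v h
    have h' : l.idxOf u = l.idxOf v := h
    have h1 := hget u
    have h2 := hget v
    rw [← h1, ← h2]
    congr 1
  obtain ⟨R, hRd⟩ : ∃ R : ℕ → ℕ → Prop, ∀ i j, R i j ↔
      ∃ (hi : i < l.length) (hj : j < l.length), D l[i] l[j] := ⟨_, fun _ _ => Iff.rfl⟩
  have hR : ∀ a b, D a b → R (l.idxOf a) (l.idxOf b) := by
    intro a b h
    refine (hRd _ _).2 ⟨hidx a, hidx b, ?_⟩
    rw [hget a, hget b]
    exact h
  obtain ⟨H, hH1, hH2, hH3⟩ := main_nat l.length k (m - 1)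
    (k * (2 * k + 2 * m - 1) + (m - 1)) R hk
    (fun a b h => ⟨((hRd _ _).1 h).1, ((hRd _ _).1 h).2.1⟩)
    (by
      refine le_trans (le_of_eq ?_) ((card_bad D l).trans hbad)
      congr 1
      ext i
      rw [Finset.mem_filter, Finset.mem_filter, hRd])
    (by
      obtain ⟨m', rfl⟩ : ∃ m', m = m' + 1 := ⟨m - 1, by omega⟩
      obtain ⟨r, hr⟩ : ∃ r, 2 * (k + m') - 1 = r := ⟨_, rfl⟩
      have e1 : 2 * k + 2 * (m' + 1) - 1 = r + 2 := by omega
      rw [e1, Nat.add_sub_cancel, hr, mul_add]
      omega)
    (by rw [hn]; exact hcard)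
    (by
      intro S' hS' u' v' hu' hv' huS hvS
      have h1 : (Finset.univ.filter fun v : V => l.idxOf v ∈ S').card ≤ S'.card := by
        apply Finset.card_le_card_of_injOn (fun v => l.idxOf v)
        · intro v hv
          exact (Finset.mem_filter.1 (Finset.mem_coe.1 hv)).2
        · exact hinj.injOn
      have h2 := hconn (Finset.univ.filter fun v : V => l.idxOf v ∈ S') (by omega) l[u'] l[v']
        (by
          rw [Finset.mem_filter, hget' u' hu']
          exact fun h => huS h.2)
        (by
          rw [Finset.mem_filter, hget' v' hv']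
          exact fun h => hvS h.2)
      have h3 := h2.lift (fun v => l.idxOf v) (p := fun a b => R a b ∧ a ∉ S' ∧ b ∉ S') (by
        rintro a b ⟨h4, h5, h6⟩
        rw [Finset.mem_filter] at h5 h6
        refine ⟨hR a b h4, fun h => h5 ⟨Finset.mem_univ _, h⟩, fun h => h6 ⟨Finset.mem_univ _, h⟩⟩)
      have h4 : l.idxOf l[u'] = u' := hget' u' hu'
      have h5 : l.idxOf l[v'] = v' := hget' v' hv'
      have h6 : Relation.ReflTransGen (fun a b => R a b ∧ a ∉ S' ∧ b ∉ S') (l.idxOf l[u'])
        (l.idxOf l[v']) := h3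
      rw [h4, h5] at h6
      exact h6)
  refine ⟨fun a b => H (l.idxOf a) (l.idxOf b), ?_, fun a b h h' => hH2 _ _ h h', ?_⟩
  · intro a b h
    obtain ⟨h1, h2, h3⟩ := (hRd _ _).1 (hH1 _ _ h)
    rw [hget a, hget b] at h3
    exact h3
  · intro S hS u v hu hv
    have hS' : (S.image fun v => l.idxOf v).card < k := lt_of_le_of_lt Finset.card_image_le hS
    have hmem : ∀ x, l.idxOf x ∈ S.image (fun v => l.idxOf v) ↔ x ∈ S := by
      intro x
      rw [Finset.mem_image]
      constructor
      · rintro ⟨y, hy, hyx⟩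
        rwa [← hinj hyx]
      · exact fun h => ⟨x, h, rfl⟩
    have h1 := hH3 (S.image fun v => l.idxOf v) hS' (by
        intro i hi
        obtain ⟨y, _, rfl⟩ := Finset.mem_image.1 hi
        exact Finset.mem_range.2 (hidx y)) (l.idxOf u) (l.idxOf v) (hidx u) (hidx v)
      (fun h => hu ((hmem u).1 h)) (fun h => hv ((hmem v).1 h))
    have h2 : ∀ x, Relation.ReflTransGen (fun a b => H a b ∧ a ∉ S.image (fun v => l.idxOf v) ∧
        b ∉ S.image fun v => l.idxOf v) (l.idxOf u) x → ∃ h : x < l.length,
        Relation.ReflTransGen (fun a b => H (l.idxOf a) (l.idxOf b) ∧ a ∉ S ∧ b ∉ S) u l[x] := by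
      intro x hx
      induction hx with
      | refl =>
        refine ⟨hidx u, ?_⟩
        rw [hget u]
      | @tail y z _ hyz ih =>
        obtain ⟨hy, ih⟩ := ih
        obtain ⟨h3, h4, h5⟩ := hyz
        obtain ⟨_, hz, _⟩ := (hRd _ _).1 (hH1 _ _ h3)
        refine ⟨hz, ih.tail ⟨?_, ?_, ?_⟩⟩
        · rw [hget' y hy, hget' z hz]
          exact h3
        · intro h
          apply h4
          rw [← hget' y hy]
          exact (hmem _).2 h
        · intro h
          apply h5
          rw [← hget' z hz]
          exact (hmem _).2 h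
    obtain ⟨h3, h4⟩ := h2 _ h1
    rw [hget v] at h4
    exact h4

end Pool.MP0a002eH87
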