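import Pool.Agent.Lib.MP_0a002e_co_h87.Balanced

/-!
The main argument, for digraphs on `{0, ..., n-1}` with few missing arcs `i -> i+1`.
-/

set_option autoImplicit false

namespace Pool.MP0a002eH87

/-- Abel summation. -/
theorem abel_bound (n : ℕ) (a χ : ℕ → ℤ) (hP : ∀ i, |∑ x ∈ Finset.range i, a x| ≤ 1)
    (h0 : ∑ x ∈ Finset.range n, a x = 0) :
    |∑ x ∈ Finset.range n, χ x * a x| ≤ ∑ i ∈ Finset.range (n - 1), |χ (i + 1) - χ i| := by
  have key : ∀ m, ∑ x ∈ Finset.range (m + 1), χ x * a x = χ m * ∑ x ∈ Finset.range (m + 1), a x -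
      ∑ i ∈ Finset.range m, (χ (i + 1) - χ i) * ∑ x ∈ Finset.range (i + 1), a x := by
    intro m
    induction m with
    | zero => simp
    | succ m ih =>
      rw [Finset.sum_range_succ, ih, Finset.sum_range_succ _ (m + 1),
        Finset.sum_range_succ (fun i => (χ (i + 1) - χ i) * ∑ x ∈ Finset.range (i + 1), a x) m]
      ring
  rcases n with _ | m
  · simp
  · rw [key m, h0, mul_zero, zero_sub, abs_neg]
    refine (Finset.abs_sum_le_sum_abs _ _).trans (Finset.sum_le_sum fun i _ => ?_)
    rw [abs_mul]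
    exact mul_le_of_le_one_right (abs_nonneg _) (hP _)

open Classical in
/-- The number of changes of a predicate. -/
theorem changes (n : ℕ) (X : ℕ → Prop) :
    (∑ i ∈ Finset.range n, |(if X (i + 1) then (1 : ℤ) else 0) - (if X i then (1 : ℤ) else 0)|) =
      ((Finset.range n).filter fun i => ¬ X i ∧ X (i + 1)).card +
        ((Finset.range n).filter fun i => X i ∧ ¬ X (i + 1)).card ∧
    ((Finset.range n).filter fun i => ¬ X i ∧ X (i + 1)).card ≤
      ((Finset.range n).filter fun i => X i ∧ ¬ X (i + 1)).card + 1 := by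
  have h1 : (∑ i ∈ Finset.range n,
      ((if X (i + 1) then (1 : ℤ) else 0) - (if X i then (1 : ℤ) else 0))) =
      (if X n then (1 : ℤ) else 0) - (if X 0 then (1 : ℤ) else 0) :=
    Finset.sum_range_sub (fun i => if X i then (1 : ℤ) else 0) n
  have h2 : ∀ i, (if X (i + 1) then (1 : ℤ) else 0) - (if X i then (1 : ℤ) else 0) =
      (if ¬ X i ∧ X (i + 1) then (1 : ℤ) else 0) - (if X i ∧ ¬ X (i + 1) then (1 : ℤ) else 0) := by
    intro i
    by_cases h : X i <;> by_cases h' : X (i + 1) <;> simp [h, h']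
  have h3 : ∀ i, |(if X (i + 1) then (1 : ℤ) else 0) - (if X i then (1 : ℤ) else 0)| =
      (if ¬ X i ∧ X (i + 1) then (1 : ℤ) else 0) + (if X i ∧ ¬ X (i + 1) then (1 : ℤ) else 0) := by
    intro i
    by_cases h : X i <;> by_cases h' : X (i + 1) <;> simp [h, h']
  refine ⟨?_, ?_⟩
  · rw [Finset.sum_congr rfl fun i _ => h3 i, Finset.sum_add_distrib, Finset.sum_boole,
      Finset.sum_boole]
  · rw [Finset.sum_congr rfl fun i _ => h2 i, Finset.sum_sub_distrib, Finset.sum_boole,
      Finset.sum_boole] at h1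
    have h4 : (if X n then (1 : ℤ) else 0) ≤ 1 := by split_ifs <;> norm_num
    have h5 : (0 : ℤ) ≤ (if X 0 then (1 : ℤ) else 0) := by split_ifs <;> norm_num
    zify
    linarith

/-- In a `c`-connected digraph every cut has many arcs. -/
theorem cut_large (n c : ℕ) (R : ℕ → ℕ → Prop) (hn : c + 1 ≤ n)
    (hconn : ∀ S : Finset ℕ, S.card < c → ∀ u v : ℕ, u < n → v < n → u ∉ S → v ∉ S →
      Relation.ReflTransGen (fun a b => R a b ∧ a ∉ S ∧ b ∉ S) u v)
    (X B S : Finset ℕ) (hX : X.Nonempty) (hB : B.Nonempty) (hXn : ∀ x ∈ X, x < n)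
    (hBn : ∀ x ∈ B, x < n) (hXB : Disjoint X B) (hXS : Disjoint X S) (hBS : Disjoint B S)
    (hcov : ∀ x < n, x ∈ X ∨ x ∈ B ∨ x ∈ S) (hR : ∀ a b, R a b → a < n ∧ b < n)
    (Q : Finset (ℕ × ℕ)) (hQ : ∀ x ∈ X, ∀ b ∈ B, R x b → (x, b) ∈ Q)
    (hQ' : ∀ p ∈ Q, p.1 ∈ X ∧ p.2 ∈ B) : c ≤ Q.card + S.card := by
  classical
  by_contra hlt
  push Not at hlt
  -- a non-adjacent pair
  obtain ⟨x0, hx0, b0, hb0, hnR⟩ : ∃ x0 ∈ X, ∃ b0 ∈ B, (x0, b0) ∉ Q := by
    by_contra hall
    push Not at hall
    have h1 : X ×ˢ B ⊆ Q := by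
      intro p hp
      rw [Finset.mem_product] at hp
      exact hall p.1 hp.1 p.2 hp.2
    have h2 := Finset.card_le_card h1
    rw [Finset.card_product] at h2
    have h3 : n ≤ X.card + B.card + S.card := by
      have h4 : Finset.range n ⊆ X ∪ (B ∪ S) := by
        intro x hx
        rw [Finset.mem_union, Finset.mem_union]
        exact hcov x (Finset.mem_range.1 hx)
      have h5 := Finset.card_le_card h4
      rw [Finset.card_range] at h5
      have h6 := Finset.card_union_le X (B ∪ S)
      have h7 := Finset.card_union_le B S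
      omega
    have h4 := hX.card_pos
    have h5 := hB.card_pos
    have h6 : X.card + B.card ≤ X.card * B.card + 1 := by
      obtain ⟨p, hp⟩ : ∃ p, X.card = p + 1 := ⟨X.card - 1, by omega⟩
      obtain ⟨q, hq⟩ : ∃ q, B.card = q + 1 := ⟨B.card - 1, by omega⟩
      rw [hp, hq]
      nlinarith [Nat.zero_le (p * q)]
    omega
  let φ : ℕ × ℕ → ℕ := fun p => if p.1 = x0 then p.2 else p.1
  let Z := Q.image φ
  have hZ : Z.card ≤ Q.card := Finset.card_image_le
  have hx0Z : x0 ∉ Z := by
    intro h
    obtain ⟨p, hp, he⟩ := Finset.mem_image.1 h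
    dsimp only [φ] at he
    split_ifs at he with h1
    · exact Finset.disjoint_left.1 hXB hx0 (he ▸ (hQ' p hp).2)
    · exact h1 he
  have hb0Z : b0 ∉ Z := by
    intro h
    obtain ⟨p, hp, he⟩ := Finset.mem_image.1 h
    dsimp only [φ] at he
    split_ifs at he with h1
    · apply hnR
      rw [← h1, ← he]
      exact hp
    · exact Finset.disjoint_left.1 hXB (he ▸ (hQ' p hp).1) hb0
  have hcard : (S ∪ Z).card < c := by
    have := Finset.card_union_le S Z
    omega
  have hpath := hconn (S ∪ Z) hcard x0 b0 (hXn _ hx0) (hBn _ hb0)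
    (by
      rw [Finset.mem_union]
      rintro (h | h)
      · exact Finset.disjoint_left.1 hXS hx0 h
      · exact hx0Z h)
    (by
      rw [Finset.mem_union]
      rintro (h | h)
      · exact Finset.disjoint_left.1 hBS hb0 h
      · exact hb0Z h)
  have hinv : ∀ v, Relation.ReflTransGen (fun a b => R a b ∧ a ∉ S ∪ Z ∧ b ∉ S ∪ Z) x0 v →
      v ∈ X := by
    intro v hv
    induction hv with
    | refl => exact hx0
    | @tail y z _ hyz ih =>
      obtain ⟨h1, h2, h3⟩ := hyz
      rcases hcov z (hR _ _ h1).2 with h | h | h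
      · exact h
      · exfalso
        have h4 := hQ y ih z h h1
        have h5 : φ (y, z) ∈ Z := Finset.mem_image_of_mem _ h4
        dsimp only [φ] at h5
        split_ifs at h5
        · exact h3 (Finset.mem_union_right _ h5)
        · exact h2 (Finset.mem_union_right _ h5)
      · exact absurd (Finset.mem_union_left _ h) h3
  exact Finset.disjoint_left.1 hXB (hinv b0 hpath) hb0

open Classical in
/-- The main theorem on `{0, ..., n-1}`: `m` is the number of missing arcs `i -> i+1`. -/
theorem main_nat (n k m c : ℕ) (R : ℕ → ℕ → Prop) (hk : 1 ≤ k)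
    (hR : ∀ a b, R a b → a < n ∧ b < n)
    (hm : ((Finset.range (n - 1)).filter fun i => ¬ R i (i + 1)).card ≤ m)
    (hc : k * (2 * (k + m) - 1) + 2 * k + m ≤ c) (hn : c + 1 ≤ n)
    (hconn : ∀ S : Finset ℕ, S.card < c → ∀ u v : ℕ, u < n → v < n → u ∉ S → v ∉ S →
      Relation.ReflTransGen (fun a b => R a b ∧ a ∉ S ∧ b ∉ S) u v) :
    ∃ H : ℕ → ℕ → Prop, (∀ a b, H a b → R a b) ∧ (∀ a b, H a b → ¬ H b a) ∧
      ∀ S : Finset ℕ, S.card < k → S ⊆ Finset.range n → ∀ u v : ℕ, u < n → v < n → u ∉ S →
        v ∉ S → Relation.ReflTransGen (fun a b => H a b ∧ a ∉ S ∧ b ∉ S) u v := by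
  let U : ℕ → ℕ → Prop := fun i j => R i j ∧ R j i ∧ i ≠ j ∧ j ≠ i + 1 ∧ i ≠ j + 1
  have hUs : ∀ i j, U i j → U j i := fun i j h => ⟨h.2.1, h.1, h.2.2.1.symm, h.2.2.2.2, h.2.2.2.1⟩
  obtain ⟨a, ha1, ha2, ha3, ha4, ha5, ha6, ha7⟩ := exists_balanced n U hUs
    (fun i h => h.2.2.1 rfl) (fun i j h => (hR _ _ h.1).1)
  let H : ℕ → ℕ → Prop := fun i j => (R i j ∧ ¬ R j i) ∨ (R i j ∧ j = i + 1) ∨ (U i j ∧ a i j = 1)
  have hanti : ∀ x y, x ≠ y → a x y = - a y x := by
    intro x y hxy
    by_cases h : U x y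
    · have := ha2 x y h
      omega
    · rw [ha3 x y h hxy.symm, ha3 y x (fun h' => h (hUs _ _ h')) hxy, neg_zero]
  refine ⟨H, ?_, ?_, ?_⟩
  · rintro i j (h | h | h)
    · exact h.1
    · exact h.1
    · exact h.1.1
  · rintro i j (h | h | h) (h' | h' | h')
    · exact h.2 h'.1
    · exact h.2 h'.1
    · exact h.2 h'.1.1
    · exact h'.2 h.1
    · omega
    · exact h'.1.2.2.2.2 h.2
    · exact h'.2 h.1.1
    · exact h.1.2.2.2.2 h'.2
    · have := ha2 i j h.1
      omega
  · intro S hS hSn u v hu hv huS hvS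
    by_contra hno
    obtain ⟨X, hX⟩ : ∃ X : ℕ → Prop, ∀ x, X x ↔ (x < n ∧
      Relation.ReflTransGen (fun a b => H a b ∧ a ∉ S ∧ b ∉ S) u x) := ⟨_, fun _ => Iff.rfl⟩
    have hXu : X u := (hX _).2 ⟨hu, Relation.ReflTransGen.refl⟩
    have hXv : ¬ X v := fun h => hno ((hX _).1 h).2
    have hXn : ∀ x, X x → x < n := fun x h => ((hX _).1 h).1
    have hXS : ∀ x, X x → x ∉ S := by
      intro x hx
      replace hx := ((hX _).1 hx).2
      rcases Relation.ReflTransGen.cases_tail hx with h | ⟨y, _, h⟩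
      · rw [h]; exact huS
      · exact h.2.2
    have hclosed : ∀ x y, X x → H x y → y ∉ S → X y := by
      intro x y hx hxy hy
      refine (hX _).2 ⟨?_, ((hX _).1 hx).2.tail ⟨hxy, hXS x hx, hy⟩⟩
      rcases hxy with h | h | h
      · exact (hR _ _ h.1).2
      · exact (hR _ _ h.1).2
      · exact (hR _ _ h.1.1).2
    let XF : Finset ℕ := (Finset.range n).filter X
    let BF : Finset ℕ := (Finset.range n).filter fun x => ¬ X x ∧ x ∉ S
    have hXF : ∀ x, x ∈ XF ↔ X x := by
      intro x
      simp only [XF, Finset.mem_filter, Finset.mem_range]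
      exact ⟨fun h => h.2, fun h => ⟨hXn x h, h⟩⟩
    have hBF : ∀ x, x ∈ BF ↔ x < n ∧ ¬ X x ∧ x ∉ S := by
      intro x
      simp only [BF, Finset.mem_filter, Finset.mem_range]
    -- the arcs from `X` to `B`
    let Q1 : Finset (ℕ × ℕ) := (XF ×ˢ BF).filter fun p => U p.1 p.2
    let Q2 : Finset (ℕ × ℕ) := (XF ×ˢ BF).filter fun p => p.1 = p.2 + 1
    let ups := ((Finset.range (n - 1)).filter fun i => ¬ X i ∧ X (i + 1)).card
    let downs := ((Finset.range (n - 1)).filter fun i => X i ∧ ¬ X (i + 1)).card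
    obtain ⟨hch1, hch2⟩ := changes (n - 1) X
    have hdowns : downs ≤ S.card + m := by
      have h1 : ((Finset.range (n - 1)).filter fun i => X i ∧ ¬ X (i + 1)) ⊆
          ((Finset.range (n - 1)).filter fun i => i + 1 ∈ S) ∪
            ((Finset.range (n - 1)).filter fun i => ¬ R i (i + 1)) := by
        intro i hi
        rw [Finset.mem_filter] at hi
        rw [Finset.mem_union, Finset.mem_filter, Finset.mem_filter]
        by_cases hRi : R i (i + 1)
        · left
          refine ⟨hi.1, ?_⟩
          by_contra hiS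
          exact hi.2.2 (hclosed i (i + 1) hi.2.1 (Or.inr (Or.inl ⟨hRi, rfl⟩)) hiS)
        · exact Or.inr ⟨hi.1, hRi⟩
      have h2 : ((Finset.range (n - 1)).filter fun i => i + 1 ∈ S).card ≤ S.card := by
        apply Finset.card_le_card_of_injOn (fun i => i + 1)
        · intro i hi
          have := (Finset.mem_filter.1 (Finset.mem_coe.1 hi)).2
          exact this
        · intro i _ j _ hij
          simpa using hij
      have h3 := (Finset.card_le_card h1).trans (Finset.card_union_le _ _)
      change downs ≤ _ at h3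
      omega
    have habel : ∀ b : ℕ → ℤ, (∀ i, |∑ x ∈ Finset.range i, b x| ≤ 1) →
        ∑ x ∈ Finset.range n, b x = 0 → |∑ x ∈ XF, b x| ≤ ups + downs := by
      intro b hb1 hb2
      have h1 := abel_bound n b (fun x => if X x then 1 else 0) hb1 hb2
      have h1' := h1.trans_eq (b := ∑ i ∈ Finset.range (n - 1),
        |(if X (i + 1) then (1 : ℤ) else 0) - (if X i then (1 : ℤ) else 0)|)
        (c := (ups : ℤ) + downs) (by convert hch1)
      have h2 : ∑ x ∈ Finset.range n, (if X x then (1 : ℤ) else 0) * b x = ∑ x ∈ XF, b x := by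
        rw [Finset.sum_filter]
        refine Finset.sum_congr rfl fun x _ => ?_
        split_ifs <;> simp
      rw [h2] at h1'
      exact h1'
    -- the balance
    have hsplit : ∀ x, ∑ y ∈ Finset.range n, a x y = ∑ y ∈ XF, a x y + ∑ y ∈ BF, a x y +
        ∑ y ∈ S, a x y := by
      intro x
      have h1 : Finset.range n = XF ∪ (BF ∪ S) := by
        ext y
        rw [Finset.mem_union, Finset.mem_union, hXF, hBF, Finset.mem_range]
        constructor
        · intro hy
          by_cases h : X y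
          · exact Or.inl h
          · by_cases h' : y ∈ S
            · exact Or.inr (Or.inr h')
            · exact Or.inr (Or.inl ⟨hy, h, h'⟩)
        · rintro (h | h | h)
          · exact hXn y h
          · exact h.1
          · exact Finset.mem_range.1 (hSn h)
      rw [h1, Finset.sum_union, Finset.sum_union]
      · ring
      · rw [Finset.disjoint_left]
        intro y hy hyS
        exact ((hBF y).1 hy).2.2 hyS
      · rw [Finset.disjoint_left]
        intro y hy hyS
        rcases Finset.mem_union.1 hyS with h | h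
        · exact ((hBF y).1 h).2.1 ((hXF y).1 hy)
        · exact hXS y ((hXF y).1 hy) h
    have hsum0 : 0 = ∑ x ∈ XF, ∑ y ∈ XF, a x y + ∑ x ∈ XF, ∑ y ∈ BF, a x y +
        ∑ x ∈ XF, ∑ y ∈ S, a x y := by
      rw [← Finset.sum_add_distrib, ← Finset.sum_add_distrib]
      symm
      apply Finset.sum_eq_zero
      intro x _
      rw [← hsplit x]
      exact ha5 x
    have hXX : ∑ x ∈ XF, ∑ y ∈ XF, a x y = ∑ x ∈ XF, a x x := by
      have h1 : ∑ x ∈ XF, ∑ y ∈ XF, (if x = y then 0 else a x y) = 0 := by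
        have h2 : ∑ x ∈ XF, ∑ y ∈ XF, (if x = y then 0 else a x y) =
            - ∑ x ∈ XF, ∑ y ∈ XF, (if x = y then 0 else a x y) := by
          conv_lhs => rw [Finset.sum_comm]
          rw [← Finset.sum_neg_distrib]
          refine Finset.sum_congr rfl fun x _ => ?_
          rw [← Finset.sum_neg_distrib]
          refine Finset.sum_congr rfl fun y _ => ?_
          by_cases h : x = y
          · rw [if_pos h.symm, if_pos h, neg_zero]
          · rw [if_neg (Ne.symm h), if_neg h]
            exact hanti y x (Ne.symm h)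
        omega
      have h2 : ∑ x ∈ XF, ∑ y ∈ XF, a x y = ∑ x ∈ XF, (a x x +
          ∑ y ∈ XF, (if x = y then 0 else a x y)) := by
        refine Finset.sum_congr rfl fun x hx => ?_
        rw [← Finset.add_sum_erase XF (fun y => a x y) hx,
          ← Finset.add_sum_erase XF (fun y => if x = y then 0 else a x y) hx]
        simp only [if_true, zero_add]
        congr 1
        refine Finset.sum_congr rfl fun y hy => ?_
        rw [if_neg (Finset.ne_of_mem_erase hy).symm]
      rw [h2, Finset.sum_add_distrib, h1, add_zero]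
    have hXB : ∑ x ∈ XF, ∑ y ∈ BF, a x y = - (Q1.card : ℤ) := by
      rw [← Finset.sum_product' (f := fun x y => a x y)]
      have h1 : ∀ p ∈ XF ×ˢ BF, a p.1 p.2 = - (if U p.1 p.2 then (1 : ℤ) else 0) := by
        intro p hp
        rw [Finset.mem_product, hXF, hBF] at hp
        have hne : p.2 ≠ p.1 := fun h => hp.2.2.1 (h ▸ hp.1)
        split_ifs with h
        · rcases ha1 _ _ h with h2 | h2
          · exact absurd (hclosed _ _ hp.1 (Or.inr (Or.inr ⟨h, h2⟩)) hp.2.2.2) hp.2.2.1
          · exact h2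
        · rw [ha3 _ _ h hne, neg_zero]
      rw [Finset.sum_congr rfl h1, Finset.sum_neg_distrib, Finset.sum_boole]
    have hXS' : ∑ x ∈ XF, ∑ y ∈ S, a x y = - ∑ z ∈ S, ∑ x ∈ XF, a z x := by
      rw [Finset.sum_comm, ← Finset.sum_neg_distrib]
      refine Finset.sum_congr rfl fun z hz => ?_
      rw [← Finset.sum_neg_distrib]
      refine Finset.sum_congr rfl fun x hx => ?_
      exact hanti x z fun h => hXS x ((hXF x).1 hx) (h ▸ hz)
    have hQ1 : (Q1.card : ℤ) ≤ (1 + S.card) * (ups + downs) := by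
      have h1 : (Q1.card : ℤ) = ∑ x ∈ XF, a x x - ∑ z ∈ S, ∑ x ∈ XF, a z x := by
        rw [hXX, hXB, hXS'] at hsum0
        omega
      have h2 := habel (fun x => a x x) ha6 ha7
      have h3 : - ∑ z ∈ S, ∑ x ∈ XF, a z x ≤ S.card * (ups + downs) := by
        rw [← Finset.sum_neg_distrib, ← nsmul_eq_mul]
        refine Finset.sum_le_card_nsmul _ _ _ fun z _ => ?_
        have h4 := habel (a z) (ha4 z) (ha5 z)
        exact (neg_le_abs _).trans h4
      have h5 := le_abs_self (∑ x ∈ XF, a x x)
      rw [h1]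
      have h6 : (1 + (S.card : ℤ)) * (ups + downs) = (ups + downs) + S.card * (ups + downs) := by
        ring
      rw [h6]
      linarith
    have hQ2 : Q2.card ≤ ups := by
      apply Finset.card_le_card_of_injOn (fun p : ℕ × ℕ => p.2)
      · intro p hp
        have h1 := Finset.mem_filter.1 (Finset.mem_coe.1 hp)
        rw [Finset.mem_product, hXF, hBF] at h1
        refine Finset.mem_coe.2 (Finset.mem_filter.2 ⟨?_, h1.1.2.2.1, ?_⟩)
        · rw [Finset.mem_range]
          change p.2 < n - 1
          have h3 : p.1 < n := hXn _ h1.1.1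
          have h4 := h1.2
          omega
        · rw [← h1.2]
          exact h1.1.1
      · intro p hp q hq hpq
        have h1 := (Finset.mem_filter.1 (Finset.mem_coe.1 hp)).2
        have h2 := (Finset.mem_filter.1 (Finset.mem_coe.1 hq)).2
        have h3 : p.2 = q.2 := hpq
        exact Prod.ext (by rw [h1, h2, h3]) h3
    have hfin := cut_large n c R hn hconn XF BF S ⟨u, (hXF u).2 hXu⟩
      ⟨v, (hBF v).2 ⟨hv, hXv, hvS⟩⟩ (fun x hx => hXn x ((hXF x).1 hx)) (fun x hx => ((hBF x).1 hx).1)
      (by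
        rw [Finset.disjoint_left]
        intro y hy hy'
        exact ((hBF y).1 hy').2.1 ((hXF y).1 hy))
      (by
        rw [Finset.disjoint_left]
        intro y hy hyS
        exact hXS y ((hXF y).1 hy) hyS)
      (by
        rw [Finset.disjoint_left]
        intro y hy hyS
        exact ((hBF y).1 hy).2.2 hyS)
      (by
        intro x hx
        rw [hXF, hBF]
        by_cases h : X x
        · exact Or.inl h
        · by_cases h' : x ∈ S
          · exact Or.inr (Or.inr h')
          · exact Or.inr (Or.inl ⟨hx, h, h'⟩))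
      hR (Q1 ∪ Q2)
      (by
        intro x hx b hb hxb
        have hx' := (hXF x).1 hx
        have hb' := (hBF b).1 hb
        have hnH : ¬ H x b := fun h => hb'.2.1 (hclosed x b hx' h hb'.2.2)
        have hbx : R b x := by
          by_contra h
          exact hnH (Or.inl ⟨hxb, h⟩)
        have h1 : b ≠ x + 1 := fun h => hnH (Or.inr (Or.inl ⟨hxb, h⟩))
        have h2 : x ≠ b := fun h => hb'.2.1 (h ▸ hx')
        rw [Finset.mem_union, Finset.mem_filter, Finset.mem_filter, Finset.mem_product]
        by_cases h3 : x = b + 1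
        · exact Or.inr ⟨⟨hx, hb⟩, h3⟩
        · exact Or.inl ⟨⟨hx, hb⟩, hxb, hbx, h2, h1, h3⟩)
      (by
        intro p hp
        rcases Finset.mem_union.1 hp with h | h
        · exact Finset.mem_product.1 (Finset.mem_filter.1 h).1
        · exact Finset.mem_product.1 (Finset.mem_filter.1 h).1)
    have hcard := Finset.card_union_le Q1 Q2
    change ups ≤ downs + 1 at hch2
    have h1 : Q1.card ≤ (1 + S.card) * (ups + downs) := by exact_mod_cast hQ1
    have h2 : (1 + S.card) * (ups + downs) ≤ k * (2 * (k + m) - 1) := by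
      apply Nat.mul_le_mul <;> omega
    omega

end Pool.MP0a002eH87
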