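import Mathlib

/-!
Signs for two fixed-point-free involutions, and consecutive pairings of finite sets.
-/

set_option autoImplicit false

namespace Pool.MP0a002eH87

/-- Two fixed-point-free involutions of a finite set have a common sign function. -/
theorem exists_sign {α : Type*} [Finite α] (f g : α → α) (hf : ∀ a, f (f a) = a)
    (hg : ∀ a, g (g a) = a) (hf' : ∀ a, f a ≠ a) (hg' : ∀ a, g a ≠ a) :
    ∃ s : α → ℤ, (∀ a, s a = 1 ∨ s a = -1) ∧ (∀ a, s (f a) = - s a) ∧
      ∀ a, s (g a) = - s a := by
  classical
  let F : Equiv.Perm α := ⟨f, f, hf, hf⟩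
  let G : Equiv.Perm α := ⟨g, g, hg, hg⟩
  let π : Equiv.Perm α := F * G
  have hFF : F * F = 1 := by ext a; exact hf a
  have hGG : G * G = 1 := by ext a; exact hg a
  have hconj : F * π * F⁻¹ = π⁻¹ := by
    have hF : F⁻¹ = F := by rw [inv_eq_iff_mul_eq_one]; exact hFF
    have hG : G⁻¹ = G := by rw [inv_eq_iff_mul_eq_one]; exact hGG
    change F * (F * G) * F⁻¹ = (F * G)⁻¹
    rw [mul_inv_rev, hF, hG, ← mul_assoc, hFF, one_mul]
  have hpow : ∀ (i : ℤ) (x : α), f ((π ^ i) x) = (π ^ (-i)) (f x) := by
    intro i x
    have h1 : F * π ^ i * F⁻¹ = π ^ (-i) := by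
      rw [← conj_zpow, hconj, inv_zpow, zpow_neg]
    have h2 := congrArg (fun p : Equiv.Perm α => p (f x)) h1
    simp only [Equiv.Perm.mul_apply] at h2
    have h3 : F⁻¹ (f x) = x := by
      rw [Equiv.Perm.inv_eq_iff_eq]
      rfl
    rw [h3] at h2
    exact h2
  have hne : ∀ a, ¬ π.SameCycle a (f a) := by
    rintro a ⟨i, hi⟩
    rcases Int.even_or_odd' i with ⟨j, rfl | rfl⟩
    · apply hf' ((π ^ j) a)
      rw [hpow, ← hi, ← Equiv.Perm.mul_apply, ← zpow_add]
      congr 2
      ring
    · apply hg' ((π ^ j) a)
      have h1 : π ((π ^ j) a) = f ((π ^ j) a) := by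
        rw [hpow, ← hi, ← Equiv.Perm.mul_apply, ← Equiv.Perm.mul_apply, ← zpow_add,
          ← zpow_one_add]
        congr 2
        ring
      have h2 : f (g ((π ^ j) a)) = f ((π ^ j) a) := h1
      have h3 := congrArg f h2
      rwa [hf, hf] at h3
  let Q := Quotient (Equiv.Perm.SameCycle.setoid π)
  let fb : Q → Q := Quotient.map f (by
    rintro a b ⟨i, rfl⟩
    exact ⟨-i, (hpow i a).symm⟩)
  have hfb : ∀ q, fb (fb q) = q := by
    intro q
    induction q using Quotient.inductionOn with
    | h a => change Quotient.mk _ (f (f a)) = _; rw [hf]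
  have hfb' : ∀ q, fb q ≠ q := by
    intro q
    induction q using Quotient.inductionOn with
    | h a =>
      intro h
      exact hne a (Quotient.exact h).symm
  have : Finite Q := Quotient.finite _
  obtain ⟨N, ⟨e⟩⟩ := Finite.exists_equiv_fin Q
  refine ⟨fun a => if e (Quotient.mk _ a) < e (fb (Quotient.mk _ a)) then 1 else -1,
    fun a => by dsimp only; split_ifs <;> simp, ?_, ?_⟩
  · intro a
    have h1 : (Quotient.mk (Equiv.Perm.SameCycle.setoid π) (f a)) = fb (Quotient.mk _ a) := rfl
    have h2 := hfb (Quotient.mk _ a)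
    have h3 : e (fb (Quotient.mk _ a)) ≠ e (Quotient.mk _ a) := fun h => hfb' _ (e.injective h)
    simp only [h1, h2]
    rcases lt_trichotomy (e (Quotient.mk (Equiv.Perm.SameCycle.setoid π) a))
      (e (fb (Quotient.mk _ a))) with h | h | h
    · rw [if_pos h, if_neg (not_lt.2 h.le)]
    · exact absurd h.symm h3
    · rw [if_neg (not_lt.2 h.le), if_pos h]; norm_num
  · intro a
    have h1 : (Quotient.mk (Equiv.Perm.SameCycle.setoid π) (g a)) = fb (Quotient.mk _ a) := by
      apply Quotient.sound
      refine ⟨1, ?_⟩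
      rw [zpow_one]
      change f (g (g a)) = f a
      rw [hg]
    have h2 := hfb (Quotient.mk _ a)
    have h3 : e (fb (Quotient.mk _ a)) ≠ e (Quotient.mk _ a) := fun h => hfb' _ (e.injective h)
    simp only [h1, h2]
    rcases lt_trichotomy (e (Quotient.mk (Equiv.Perm.SameCycle.setoid π) a))
      (e (fb (Quotient.mk _ a))) with h | h | h
    · rw [if_pos h, if_neg (not_lt.2 h.le)]
    · exact absurd h.symm h3
    · rw [if_neg (not_lt.2 h.le), if_pos h]; norm_num

/-- Consecutive pairing of a finite set of natural numbers. -/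
theorem exists_pairing (F : Finset ℕ) (hF : Even F.card) :
    ∃ τ : ℕ → ℕ, (∀ x ∈ F, τ x ∈ F ∧ τ x ≠ x ∧ τ (τ x) = x) ∧
      ∀ s : ℕ → ℤ, (∀ x ∈ F, s x = 1 ∨ s x = -1) → (∀ x ∈ F, s (τ x) = - s x) →
        (∀ i, |∑ x ∈ F with x < i, s x| ≤ 1) ∧ ∑ x ∈ F, s x = 0 := by
  classical
  obtain ⟨r, hr⟩ : ∃ r, F.card = 2 * r := by
    obtain ⟨r, hr⟩ := hF
    exact ⟨r, by omega⟩
  induction r generalizing F with
  | zero =>
    have : F = ∅ := Finset.card_eq_zero.1 (by omega)
    subst this
    exact ⟨id, by simp, by simp⟩
  | succ r ih =>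
    have hne : F.Nonempty := Finset.card_pos.1 (by omega)
    obtain ⟨a, ha, hamin⟩ : ∃ a ∈ F, ∀ x ∈ F, a ≤ x := ⟨F.min' hne, F.min'_mem hne, fun x hx =>
      F.min'_le x hx⟩
    have hc1 : (F.erase a).card = 2 * r + 1 := by rw [Finset.card_erase_of_mem ha]; omega
    have hne1 : (F.erase a).Nonempty := Finset.card_pos.1 (by omega)
    obtain ⟨b, hb, hbmin⟩ : ∃ b ∈ F.erase a, ∀ x ∈ F.erase a, b ≤ x :=
      ⟨(F.erase a).min' hne1, (F.erase a).min'_mem hne1, fun x hx => (F.erase a).min'_le x hx⟩
    have hba : b ≠ a := (Finset.mem_erase.1 hb).1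
    have hbF : b ∈ F := (Finset.mem_erase.1 hb).2
    have hab : a < b := lt_of_le_of_ne (hamin b hbF) hba.symm
    have hc2 : ((F.erase a).erase b).card = 2 * r := by rw [Finset.card_erase_of_mem hb]; omega
    obtain ⟨τ, h1, h2⟩ := ih ((F.erase a).erase b) ⟨r, by omega⟩ hc2
    have hmem : ∀ x, x ∈ (F.erase a).erase b ↔ x ≠ b ∧ x ≠ a ∧ x ∈ F := by
      intro x
      rw [Finset.mem_erase, Finset.mem_erase]
    refine ⟨fun x => if x = a then b else if x = b then a else τ x, ?_, ?_⟩
    · intro x hx
      dsimp only
      by_cases hxa : x = a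
      · subst hxa
        simp [hbF, hba]
      · by_cases hxb : x = b
        · subst hxb
          simp [hba, ha, hba.symm]
        · obtain ⟨k1, k2, k3⟩ := h1 x ((hmem x).2 ⟨hxb, hxa, hx⟩)
          obtain ⟨k4, k5, k6⟩ := (hmem _).1 k1
          simp [hxa, hxb, k6, k2, k3, k4, k5]
    · intro s hs hs'
      have hsa : s b = - s a := by
        have := hs' a ha
        simpa using this
      have hF' : F = insert a (insert b ((F.erase a).erase b)) := by
        rw [Finset.insert_erase hb, Finset.insert_erase ha]
      obtain ⟨k1, k2⟩ := h2 s (fun x hx => hs x ((hmem x).1 hx).2.2) (fun x hx => by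
        obtain ⟨l1, l2, l3⟩ := (hmem x).1 hx
        have := hs' x l3
        simpa [l1, l2] using this)
      have hanot : a ∉ insert b ((F.erase a).erase b) := by
        rw [Finset.insert_erase hb]
        simp
      have hbnot : b ∉ (F.erase a).erase b := by simp
      refine ⟨fun i => ?_, ?_⟩
      · rw [hF', Finset.filter_insert, Finset.filter_insert]
        by_cases hai : a < i
        · by_cases hbi : b < i
          · rw [if_pos hai, if_pos hbi, Finset.sum_insert (by
              intro h
              apply hanot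
              rcases Finset.mem_insert.1 h with h | h
              · exact Finset.mem_insert.2 (Or.inl h)
              · exact Finset.mem_insert_of_mem (Finset.mem_filter.1 h).1),
              Finset.sum_insert (by
                intro h
                exact hbnot (Finset.mem_filter.1 h).1), hsa]
            have := k1 i
            have e : s a + (-s a + ∑ x ∈ (F.erase a).erase b with x < i, s x) =
              ∑ x ∈ (F.erase a).erase b with x < i, s x := by ring
            rw [e]
            exact this
          · rw [if_pos hai, if_neg hbi]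
            have he : ((F.erase a).erase b).filter (fun x => x < i) = ∅ := by
              rw [Finset.filter_eq_empty_iff]
              intro x hx hxi
              have := hbmin x (Finset.mem_of_mem_erase hx)
              omega
            rw [he]
            simp only [Finset.sum_insert (Finset.notMem_empty a), Finset.sum_empty, add_zero]
            rcases hs a ha with h | h <;> rw [h] <;> norm_num
        · have hbi : ¬ b < i := by omega
          rw [if_neg hai, if_neg hbi]
          exact k1 i
      · rw [hF', Finset.sum_insert hanot, Finset.sum_insert hbnot, k2, hsa]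
        ring

end Pool.MP0a002eH87
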